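import Mathlib

set_option autoImplicit false

namespace Pool.Agent.Helper989.Tile

section props

variable (M : Type*) [Monoid M]

def pA : Prop := ∃ g : M, g ≠ 1 ∧ g * g = 1
def pB : Prop := ∃ g : M, g ≠ 1 ∧ g * g * g = 1
def pC : Prop := ∃ g : M, g * g ≠ 1 ∧ g * g * g ≠ 1 ∧ g * g * g * (g * g * g) = 1
def pD : Prop := ∀ g h : M, g * h = h * g
def pK : Prop := ∃ s t : M, s * s = 1 ∧ t * t = 1 ∧ s ≠ 1 ∧ t ≠ 1 ∧ s ≠ t ∧ s * t = t * s
def pL : Prop := ∃ s : M, s ≠ 1 ∧ s * s = 1 ∧ ∀ h : M, h * s = s * h → h = 1 ∨ h = s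
def pN : Prop := ∀ s : M, s ≠ 1 → s * s = 1 → ∀ h : M, h * s = s * h → h = 1 ∨ h = s
def pM : Prop := ∀ c : M, c * c * c = 1 → ∃ s : M, s * s = 1 ∧ s * c * s = c * c
def pQ : Prop := ∀ s : M, s ≠ 1 → s * s = 1 → ∀ h : M, h * s = s * h →
  ∃ g : M, g * g = h ∨ g * g = h * s
def pO : Prop := ∀ g h : M, g * g ≠ 1 → h * h ≠ 1 → g * h = h * g

end props

section transfer

variable {M N : Type*} [Monoid M] [Monoid N] (e : M ≃* N)

include e

theorem pA_iff : pA M ↔ pA N := by
  unfold pA; rw [e.surjective.exists]; simp [← map_mul]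
theorem pB_iff : pB M ↔ pB N := by
  unfold pB; rw [e.surjective.exists]; simp [← map_mul]
theorem pC_iff : pC M ↔ pC N := by
  unfold pC; rw [e.surjective.exists]; simp [← map_mul]
theorem pD_iff : pD M ↔ pD N := by
  unfold pD; rw [e.surjective.forall]
  refine forall_congr' fun x => ?_
  rw [e.surjective.forall]; simp [← map_mul]
theorem pK_iff : pK M ↔ pK N := by
  unfold pK; rw [e.surjective.exists]
  refine exists_congr fun x => ?_
  rw [e.surjective.exists]; simp [← map_mul]
theorem pL_iff : pL M ↔ pL N := by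
  unfold pL; rw [e.surjective.exists]
  refine exists_congr fun x => ?_
  rw [e.surjective.forall]; simp [← map_mul]
theorem pN_iff : pN M ↔ pN N := by
  unfold pN; rw [e.surjective.forall]
  refine forall_congr' fun x => ?_
  rw [e.surjective.forall]; simp [← map_mul]
theorem pM_iff : pM M ↔ pM N := by
  unfold pM; rw [e.surjective.forall]
  refine forall_congr' fun x => ?_
  rw [e.surjective.exists]; simp [← map_mul]
theorem pQ_iff : pQ M ↔ pQ N := by
  unfold pQ; rw [e.surjective.forall]
  refine forall_congr' fun x => ?_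
  rw [e.surjective.forall]
  simp only [e.surjective.exists]
  simp [← map_mul]
theorem pO_iff : pO M ↔ pO N := by
  unfold pO; rw [e.surjective.forall]
  refine forall_congr' fun x => ?_
  rw [e.surjective.forall]; simp [← map_mul]

end transfer

open Classical in
noncomputable def tf (A B C D K L N M Q O : Prop) : ℕ :=
  if A then
    (if B then
      (if C then (if K then 4 else 3) else (if M then 5 else 6))
     else
      (if K then (if L then 8 else 7)
       else (if L then (if N then (if O then 9 else 10) else 11)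
             else (if Q then 13 else 12))))
  else (if B then 2 else (if D then 0 else 1))

/-- A numerical invariant of groups, separating the fourteen wallpaper groups without rotations
of order four. -/
noncomputable def typ (M : Type*) [Monoid M] : ℕ :=
  tf (pA M) (pB M) (pC M) (pD M) (pK M) (pL M) (pN M) (pM M) (pQ M) (pO M)

theorem typ_congr {M N : Type*} [Monoid M] [Monoid N] (e : M ≃* N) : typ M = typ N := by
  have hA : pA M = pA N := propext (pA_iff e)
  have hB : pB M = pB N := propext (pB_iff e)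
  have hC : pC M = pC N := propext (pC_iff e)
  have hD : pD M = pD N := propext (pD_iff e)
  have hK : pK M = pK N := propext (pK_iff e)
  have hL : pL M = pL N := propext (pL_iff e)
  have hN : pN M = pN N := propext (pN_iff e)
  have hM : pM M = pM N := propext (pM_iff e)
  have hQ : pQ M = pQ N := propext (pQ_iff e)
  have hO : pO M = pO N := propext (pO_iff e)
  rw [typ, typ, hA, hB, hC, hD, hK, hL, hN, hM, hQ, hO]

/-- integral affine maps `(x, y) ↦ (a x + b y + e, c x + d y + f)` -/
@[ext] structure Aff where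
  a : ℤ
  b : ℤ
  c : ℤ
  d : ℤ
  e : ℤ
  f : ℤ

namespace Aff

instance : Mul Aff := ⟨fun g h => ⟨g.a*h.a+g.b*h.c, g.a*h.b+g.b*h.d, g.c*h.a+g.d*h.c,
  g.c*h.b+g.d*h.d, g.a*h.e+g.b*h.f+g.e, g.c*h.e+g.d*h.f+g.f⟩⟩
instance : One Aff := ⟨⟨1,0,0,1,0,0⟩⟩

@[simp] theorem mul_a (g h : Aff) : (g*h).a = g.a*h.a+g.b*h.c := rfl
@[simp] theorem mul_b (g h : Aff) : (g*h).b = g.a*h.b+g.b*h.d := rfl
@[simp] theorem mul_c (g h : Aff) : (g*h).c = g.c*h.a+g.d*h.c := rfl
@[simp] theorem mul_d (g h : Aff) : (g*h).d = g.c*h.b+g.d*h.d := rfl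
@[simp] theorem mul_e (g h : Aff) : (g*h).e = g.a*h.e+g.b*h.f+g.e := rfl
@[simp] theorem mul_f (g h : Aff) : (g*h).f = g.c*h.e+g.d*h.f+g.f := rfl
@[simp] theorem one_a : (1 : Aff).a = 1 := rfl
@[simp] theorem one_b : (1 : Aff).b = 0 := rfl
@[simp] theorem one_c : (1 : Aff).c = 0 := rfl
@[simp] theorem one_d : (1 : Aff).d = 1 := rfl
@[simp] theorem one_e : (1 : Aff).e = 0 := rfl
@[simp] theorem one_f : (1 : Aff).f = 0 := rfl

instance : Monoid Aff where
  mul_assoc := by intro x y z; ext <;> simp <;> ring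
  one_mul := by intro x; ext <;> simp
  mul_one := by intro x; ext <;> simp

/-- the linear part -/
def is (g : Aff) (a b c d : ℤ) : Prop := g.a = a ∧ g.b = b ∧ g.c = c ∧ g.d = d

instance (g : Aff) (a b c d : ℤ) : Decidable (g.is a b c d) := by unfold is; infer_instance

end Aff

end Pool.Agent.Helper989.Tile
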