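import Mathlib
import Pool.Agent.Helper989.TileGrp

set_option autoImplicit false

namespace Pool.Agent.Helper989.Tile

open Metric

abbrev E := EuclideanSpace ℝ (Fin 2)

noncomputable def r3 : ℝ := Real.sqrt 3

theorem r3_sq : r3 ^ 2 = 3 := Real.sq_sqrt (by norm_num)
theorem r3_pos : 0 < r3 := Real.sqrt_pos.mpr (by norm_num)
theorem r3_ne : r3 ≠ 0 := r3_pos.ne'

/-- the point with coordinates `(s, t)` in the basis of the triangular lattice -/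
noncomputable def pt (s t : ℝ) : E := !₂[s + t / 2, r3 / 2 * t]
noncomputable def cs (x : E) : ℝ := x 0 - x 1 / r3
noncomputable def ct (x : E) : ℝ := 2 * x 1 / r3

@[simp] theorem cs_pt (s t : ℝ) : cs (pt s t) = s := by
  have := r3_ne
  simp [cs, pt]; field_simp; ring
@[simp] theorem ct_pt (s t : ℝ) : ct (pt s t) = t := by
  have := r3_ne
  simp [ct, pt]; field_simp
@[simp] theorem pt_cs_ct (x : E) : pt (cs x) (ct x) = x := by
  have := r3_ne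
  ext i
  fin_cases i
  · simp [cs, ct, pt]; field_simp; ring
  · simp [cs, ct, pt]; field_simp

theorem pt_inj {s t s' t' : ℝ} : pt s t = pt s' t' ↔ s = s' ∧ t = t' := by
  constructor
  · intro h
    exact ⟨by simpa using congrArg cs h, by simpa using congrArg ct h⟩
  · rintro ⟨rfl, rfl⟩; rfl

theorem continuous_cs : Continuous cs := by unfold cs; fun_prop
theorem continuous_ct : Continuous ct := by unfold ct; fun_prop
theorem continuous_pt : Continuous (fun p : ℝ × ℝ => pt p.1 p.2) := by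
  unfold pt
  fun_prop

theorem dist_sq (x y : E) : dist x y ^ 2 =
    (cs x - cs y) ^ 2 + (cs x - cs y) * (ct x - ct y) + (ct x - ct y) ^ 2 := by
  have h := r3_ne
  have h2 := r3_sq
  rw [EuclideanSpace.dist_eq, Real.sq_sqrt (by positivity)]
  simp only [Fin.sum_univ_two, Real.dist_eq, sq_abs, cs, ct]
  field_simp
  rw [h2]
  ring_nf
  rw [h2]
  ring

theorem add_pt (x : E) (s t : ℝ) : x + pt s t = pt (cs x + s) (ct x + t) := by
  conv_lhs => rw [← pt_cs_ct x]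
  ext i
  fin_cases i
  · simp [pt]; ring
  · simp [pt]; ring

/-- the affine map of the plane given by `w` in lattice coordinates -/
noncomputable def act (w : Aff) (x : E) : E :=
  pt (w.a * cs x + w.b * ct x + w.e) (w.c * cs x + w.d * ct x + w.f)

@[simp] theorem cs_act (w : Aff) (x : E) : cs (act w x) = w.a * cs x + w.b * ct x + w.e := by
  simp [act]
@[simp] theorem ct_act (w : Aff) (x : E) : ct (act w x) = w.c * cs x + w.d * ct x + w.f := by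
  simp [act]

theorem act_mul (g h : Aff) (x : E) : act (g * h) x = act g (act h x) := by
  simp only [act, cs_pt, ct_pt, Aff.mul_a, Aff.mul_b, Aff.mul_c, Aff.mul_d, Aff.mul_e, Aff.mul_f]
  rw [pt_inj]; push_cast
  constructor <;> ring

theorem act_one (x : E) : act 1 x = x := by
  simp [act]

/-- the twelve linear parts -/
def Good (w : Aff) : Prop :=
  w.is 1 0 0 1 ∨ w.is (-1) 0 0 (-1) ∨ w.is 0 (-1) 1 1 ∨ w.is (-1) (-1) 1 0 ∨
  w.is 0 1 (-1) (-1) ∨ w.is 1 1 (-1) 0 ∨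
  w.is 0 1 1 0 ∨ w.is 0 (-1) (-1) 0 ∨ w.is 1 1 0 (-1) ∨ w.is (-1) (-1) 0 1 ∨
  w.is 1 0 (-1) (-1) ∨ w.is (-1) 0 1 1

instance (w : Aff) : Decidable (Good w) := by unfold Good; infer_instance

theorem Good.one : Good 1 := by left; simp [Aff.is]

theorem Good.quad {w : Aff} (h : Good w) : w.a^2+w.a*w.c+w.c^2 = 1 ∧ w.b^2+w.b*w.d+w.d^2=1 ∧
    2*w.a*w.b+w.a*w.d+w.b*w.c+2*w.c*w.d = 1 := by
  unfold Good Aff.is at h
  rcases h with ⟨h1,h2,h3,h4⟩|⟨h1,h2,h3,h4⟩|⟨h1,h2,h3,h4⟩|⟨h1,h2,h3,h4⟩|⟨h1,h2,h3,h4⟩|⟨h1,h2,h3,h4⟩|⟨h1,h2,h3,h4⟩|⟨h1,h2,h3,h4⟩|⟨h1,h2,h3,h4⟩|⟨h1,h2,h3,h4⟩|⟨h1,h2,h3,h4⟩|⟨h1,h2,h3,h4⟩ <;>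
  rw [h1,h2,h3,h4] <;> norm_num

theorem small {a c : ℤ} (h : a^2+a*c+c^2=1) : (a = 1 ∧ c = 0) ∨ (a = -1 ∧ c = 0) ∨ (a=0∧c=1) ∨
    (a=0∧c=-1) ∨ (a=1∧c=-1) ∨ (a=-1∧c=1) := by
  have h1 : a ≤ 1 := by nlinarith [sq_nonneg (a+2*c), sq_nonneg a]
  have h2 : -1 ≤ a := by nlinarith [sq_nonneg (a+2*c), sq_nonneg a]
  have h3 : c ≤ 1 := by nlinarith [sq_nonneg (c+2*a), sq_nonneg c]
  have h4 : -1 ≤ c := by nlinarith [sq_nonneg (c+2*a), sq_nonneg c]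
  interval_cases a <;> interval_cases c <;> simp_all

theorem good_of_quad {w : Aff} (h1 : w.a^2+w.a*w.c+w.c^2 = 1) (h2 : w.b^2+w.b*w.d+w.d^2=1)
    (h3 : 2*w.a*w.b+w.a*w.d+w.b*w.c+2*w.c*w.d = 1) : Good w := by
  unfold Good Aff.is
  rcases small h1 with ⟨ha,hc⟩|⟨ha,hc⟩|⟨ha,hc⟩|⟨ha,hc⟩|⟨ha,hc⟩|⟨ha,hc⟩ <;>
  rcases small h2 with ⟨hb,hd⟩|⟨hb,hd⟩|⟨hb,hd⟩|⟨hb,hd⟩|⟨hb,hd⟩|⟨hb,hd⟩ <;>
  rw [ha,hb,hc,hd] at h3 <;> rw [ha,hb,hc,hd] <;> first | (exfalso; omega) | decide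

theorem Good.mul {g h : Aff} (hg : Good g) (hh : Good h) : Good (g*h) := by
  obtain ⟨p1,p2,p3⟩ := hg.quad
  obtain ⟨q1,q2,q3⟩ := hh.quad
  apply good_of_quad
  · simp only [Aff.mul_a, Aff.mul_c]; linear_combination h.a^2*p1+h.c^2*p2+h.a*h.c*p3 + q1
  · simp only [Aff.mul_b, Aff.mul_d]; linear_combination h.b^2*p1+h.d^2*p2+h.b*h.d*p3 + q2
  · simp only [Aff.mul_a, Aff.mul_c, Aff.mul_b, Aff.mul_d]
    linear_combination 2*h.a*h.b*p1+2*h.c*h.d*p2+(h.a*h.d+h.b*h.c)*p3+q3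

/-- the inverse affine map -/
def inv (w : Aff) : Aff :=
  let δ := w.a * w.d - w.b * w.c
  ⟨δ * w.d, -δ * w.b, -δ * w.c, δ * w.a, δ * (w.b * w.f - w.d * w.e), δ * (w.c * w.e - w.a * w.f)⟩

theorem Good.det {w : Aff} (h : Good w) : (w.a * w.d - w.b * w.c)^2 = 1 := by
  unfold Good Aff.is at h
  rcases h with ⟨h1,h2,h3,h4⟩|⟨h1,h2,h3,h4⟩|⟨h1,h2,h3,h4⟩|⟨h1,h2,h3,h4⟩|⟨h1,h2,h3,h4⟩|⟨h1,h2,h3,h4⟩|⟨h1,h2,h3,h4⟩|⟨h1,h2,h3,h4⟩|⟨h1,h2,h3,h4⟩|⟨h1,h2,h3,h4⟩|⟨h1,h2,h3,h4⟩|⟨h1,h2,h3,h4⟩ <;>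
  rw [h1,h2,h3,h4] <;> norm_num

theorem Good.inv_mul {w : Aff} (h : Good w) : inv w * w = 1 := by
  have hd := h.det
  ext <;> simp [inv] <;> first | linear_combination hd | ring1

theorem Good.mul_inv {w : Aff} (h : Good w) : w * inv w = 1 := by
  have hd := h.det
  ext <;> simp [inv] <;> first | linear_combination hd | ring1 | linear_combination w.e * hd | linear_combination (-w.e) * hd | linear_combination w.f * hd | linear_combination (-w.f) * hd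

theorem Good.inv {w : Aff} (h : Good w) : Good (inv w) := by
  have hd := h.det
  have h' := h
  unfold Good Aff.is at h'
  unfold Good Aff.is Tile.inv
  dsimp only
  rcases h' with ⟨h1,h2,h3,h4⟩|⟨h1,h2,h3,h4⟩|⟨h1,h2,h3,h4⟩|⟨h1,h2,h3,h4⟩|⟨h1,h2,h3,h4⟩|⟨h1,h2,h3,h4⟩|⟨h1,h2,h3,h4⟩|⟨h1,h2,h3,h4⟩|⟨h1,h2,h3,h4⟩|⟨h1,h2,h3,h4⟩|⟨h1,h2,h3,h4⟩|⟨h1,h2,h3,h4⟩ <;>
  rw [h1,h2,h3,h4] <;> decide

theorem isometry_act {w : Aff} (h : Good w) : Isometry (act w) := by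
  apply Isometry.of_dist_eq
  intro x y
  obtain ⟨p1,p2,p3⟩ := h.quad
  have e1 : (w.a:ℝ)^2+w.a*w.c+(w.c:ℝ)^2 = 1 := by exact_mod_cast p1
  have e2 : (w.b:ℝ)^2+w.b*w.d+(w.d:ℝ)^2 = 1 := by exact_mod_cast p2
  have e3 : 2*(w.a:ℝ)*w.b+w.a*w.d+w.b*w.c+2*(w.c:ℝ)*w.d = 1 := by exact_mod_cast p3
  have key : dist (act w x) (act w y) ^ 2 = dist x y ^ 2 := by
    rw [dist_sq, dist_sq]
    simp only [cs_act, ct_act]
    linear_combination (cs x - cs y)^2 * e1 + (ct x - ct y)^2 * e2 + (cs x - cs y) * (ct x - ct y) * e3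
  exact (sq_eq_sq₀ dist_nonneg dist_nonneg).mp key

/-- the isometry given by `w` -/
noncomputable def gam (w : Aff) (h : Good w) : E ≃ᵢ E where
  toFun := act w
  invFun := act (inv w)
  left_inv := fun x => by rw [← act_mul, h.inv_mul, act_one]
  right_inv := fun x => by rw [← act_mul, h.mul_inv, act_one]
  isometry_toFun := isometry_act h

@[simp] theorem gam_apply (w : Aff) (h : Good w) (x : E) : gam w h x = act w x := rfl

theorem gam_mul {g h : Aff} (hg : Good g) (hh : Good h) :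
    gam (g * h) (hg.mul hh) = gam g hg * gam h hh := by
  ext1 x
  exact act_mul g h x

theorem gam_inj {g h : Aff} {hg : Good g} {hh : Good h} (e : gam g hg = gam h hh) : g = h := by
  have k : ∀ s t : ℝ, pt (g.a * s + g.b * t + g.e) (g.c * s + g.d * t + g.f) =
      pt (h.a * s + h.b * t + h.e) (h.c * s + h.d * t + h.f) := by
    intro s t
    have := congrArg (fun F : E ≃ᵢ E => F (pt s t)) e
    simpa [act] using this
  have k0 := k 0 0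
  have k1 := k 1 0
  have k2 := k 0 1
  rw [pt_inj] at k0 k1 k2
  ext
  · have : (g.a : ℝ) = h.a := by linarith [k0.1, k1.1]
    exact_mod_cast this
  · have : (g.b : ℝ) = h.b := by linarith [k0.1, k2.1]
    exact_mod_cast this
  · have : (g.c : ℝ) = h.c := by linarith [k0.2, k1.2]
    exact_mod_cast this
  · have : (g.d : ℝ) = h.d := by linarith [k0.2, k2.2]
    exact_mod_cast this
  · have : (g.e : ℝ) = h.e := by linarith [k0.1]
    exact_mod_cast this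
  · have : (g.f : ℝ) = h.f := by linarith [k0.2]
    exact_mod_cast this

/-- the lozenge with centre `(u / 2, v / 2)` -/
def Lz (u v : ℤ) : Set E := {x | (¬ 2 ∣ u → |2 * cs x - u| ≤ 1) ∧ (¬ 2 ∣ v → |2 * ct x - v| ≤ 1) ∧
  (¬ 2 ∣ (u + v) → |2 * (cs x + ct x) - (u + v)| ≤ 1)}

/-- action on doubled centres -/
def ax (w : Aff) (u v : ℤ) : ℤ := w.a * u + w.b * v + 2 * w.e
def ay (w : Aff) (u v : ℤ) : ℤ := w.c * u + w.d * v + 2 * w.f

theorem mem_Lz_act {w : Aff} (h : Good w) (u v : ℤ) (x : E) :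
    act w x ∈ Lz (ax w u v) (ay w u v) ↔ x ∈ Lz u v := by
  unfold Good Aff.is at h
  unfold Lz ax ay
  simp only [Set.mem_ofPred_eq, cs_act, ct_act]
  rcases h with ⟨h1,h2,h3,h4⟩|⟨h1,h2,h3,h4⟩|⟨h1,h2,h3,h4⟩|⟨h1,h2,h3,h4⟩|⟨h1,h2,h3,h4⟩|⟨h1,h2,h3,h4⟩|⟨h1,h2,h3,h4⟩|⟨h1,h2,h3,h4⟩|⟨h1,h2,h3,h4⟩|⟨h1,h2,h3,h4⟩|⟨h1,h2,h3,h4⟩|⟨h1,h2,h3,h4⟩ <;>
  rw [h1,h2,h3,h4] <;> push_cast <;> simp only [abs_le] <;> constructor <;> rintro ⟨k1,k2,k3⟩ <;>
  refine ⟨fun q => ?_, fun q => ?_, fun q => ?_⟩ <;>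
  first
  | (have k := k1 (by omega); constructor <;> linarith [k.1, k.2])
  | (have k := k2 (by omega); constructor <;> linarith [k.1, k.2])
  | (have k := k3 (by omega); constructor <;> linarith [k.1, k.2])

end Pool.Agent.Helper989.Tile
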