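import Mathlib
import Pool.Agent.Helper989.TileGeo

set_option autoImplicit false

namespace Pool.Agent.Helper989.Tile

open Metric

/-- the family of lozenges with doubled centres in `W` -/
def TT (W : ℤ → ℤ → Prop) : Set (Set E) := {A | ∃ u v, W u v ∧ A = Lz u v}

/-- exactly one of three -/
def One3 (a b c : Prop) : Prop := (a ∧ ¬ b ∧ ¬ c) ∨ (¬ a ∧ b ∧ ¬ c) ∨ (¬ a ∧ ¬ b ∧ c)

/-- every triangle of the triangular lattice has exactly one of its edge midpoints in `W` -/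
structure Tiling (W : ℤ → ℤ → Prop) : Prop where
  nt : ∀ i j, ¬ W (2*i) (2*j)
  up : ∀ i j, One3 (W (2*i+1) (2*j+1)) (W (2*i+1) (2*j)) (W (2*i) (2*j+1))
  dn : ∀ i j, One3 (W (2*i+1) (2*j+1)) (W (2*i+1) (2*j+2)) (W (2*i+2) (2*j+1))

theorem Tiling.valid {W : ℤ → ℤ → Prop} (hW : Tiling W) {u v : ℤ} (h : W u v) : ¬ (2 ∣ u ∧ 2 ∣ v) := by
  rintro ⟨⟨i, rfl⟩, ⟨j, rfl⟩⟩
  exact hW.nt i j h

theorem mem_Lz {u v : ℤ} {x : E} : x ∈ Lz u v ↔ (¬ 2 ∣ u → |2 * cs x - u| ≤ 1) ∧ (¬ 2 ∣ v → |2 * ct x - v| ≤ 1) ∧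
  (¬ 2 ∣ (u + v) → |2 * (cs x + ct x) - (u + v)| ≤ 1) := Iff.rfl

theorem cover {W : ℤ → ℤ → Prop} (hW : Tiling W) : ⋃₀ (TT W) = Set.univ := by
  rw [Set.eq_univ_iff_forall]
  intro x
  have hs1 := Int.floor_le (cs x)
  have hs2 := Int.lt_floor_add_one (cs x)
  have ht1 := Int.floor_le (ct x)
  have ht2 := Int.lt_floor_add_one (ct x)
  set i := ⌊cs x⌋
  set j := ⌊ct x⌋
  rw [Set.mem_sUnion]
  rcases lt_or_ge (cs x + ct x) (i + j + 1) with h | h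
  · rcases hW.up i j with h' | h' | h'
    · refine ⟨_, ⟨_, _, h'.1, rfl⟩, ?_⟩
      rw [mem_Lz]
      refine ⟨fun _ => ?_, fun _ => ?_, fun q => absurd ?_ q⟩
      · rw [abs_le]; push_cast; constructor <;> linarith
      · rw [abs_le]; push_cast; constructor <;> linarith
      · omega
    · refine ⟨_, ⟨_, _, h'.2.1, rfl⟩, ?_⟩
      rw [mem_Lz]
      refine ⟨fun _ => ?_, fun q => absurd ?_ q, fun _ => ?_⟩
      · rw [abs_le]; push_cast; constructor <;> linarith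
      · omega
      · rw [abs_le]; push_cast; constructor <;> linarith
    · refine ⟨_, ⟨_, _, h'.2.2, rfl⟩, ?_⟩
      rw [mem_Lz]
      refine ⟨fun q => absurd ?_ q, fun _ => ?_, fun _ => ?_⟩
      · omega
      · rw [abs_le]; push_cast; constructor <;> linarith
      · rw [abs_le]; push_cast; constructor <;> linarith
  · rcases hW.dn i j with h' | h' | h'
    · refine ⟨_, ⟨_, _, h'.1, rfl⟩, ?_⟩
      rw [mem_Lz]
      refine ⟨fun _ => ?_, fun _ => ?_, fun q => absurd ?_ q⟩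
      · rw [abs_le]; push_cast; constructor <;> linarith
      · rw [abs_le]; push_cast; constructor <;> linarith
      · omega
    · refine ⟨_, ⟨_, _, h'.2.1, rfl⟩, ?_⟩
      rw [mem_Lz]
      refine ⟨fun _ => ?_, fun q => absurd ?_ q, fun _ => ?_⟩
      · rw [abs_le]; push_cast; constructor <;> linarith
      · omega
      · rw [abs_le]; push_cast; constructor <;> linarith
    · refine ⟨_, ⟨_, _, h'.2.2, rfl⟩, ?_⟩
      rw [mem_Lz]
      refine ⟨fun q => absurd ?_ q, fun _ => ?_, fun _ => ?_⟩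
      · omega
      · rw [abs_le]; push_cast; constructor <;> linarith
      · rw [abs_le]; push_cast; constructor <;> linarith

theorem not_int {a : ℝ} {m : ℤ} (h1 : (m : ℝ) < a) (h2 : a < m + 1) (n : ℤ) : a ≠ n := by
  rintro rfl
  have h3 : m < n := by exact_mod_cast h1
  have h4 : n < m + 1 := by exact_mod_cast h2
  omega

theorem generic {U : Set E} (hU : IsOpen U) {x : E} (hx : x ∈ U) :
    ∃ y ∈ U, (∀ n : ℤ, cs y ≠ n) ∧ (∀ n : ℤ, ct y ≠ n) ∧ (∀ n : ℤ, cs y + ct y ≠ n) := by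
  obtain ⟨r, hr, hb⟩ := Metric.isOpen_iff.mp hU x hx
  set δ1 := (⌊cs x⌋ : ℝ) + 1 - cs x with h1
  set δ2 := (⌊ct x⌋ : ℝ) + 1 - ct x with h2
  set δ3 := (⌊cs x + ct x⌋ : ℝ) + 1 - (cs x + ct x) with h3
  have p1 : 0 < δ1 := by have := Int.lt_floor_add_one (cs x); linarith
  have p2 : 0 < δ2 := by have := Int.lt_floor_add_one (ct x); linarith
  have p3 : 0 < δ3 := by have := Int.lt_floor_add_one (cs x + ct x); linarith
  set ε := min (min δ1 δ2) (min δ3 r) / 4 with hε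
  have q : 0 < min (min δ1 δ2) (min δ3 r) := lt_min (lt_min p1 p2) (lt_min p3 hr)
  have e0 : 0 < ε := by positivity
  have e1 : 4 * ε ≤ δ1 := by
    have : min (min δ1 δ2) (min δ3 r) ≤ δ1 := (min_le_left _ _).trans (min_le_left _ _)
    linarith
  have e2 : 4 * ε ≤ δ2 := by
    have : min (min δ1 δ2) (min δ3 r) ≤ δ2 := (min_le_left _ _).trans (min_le_right _ _)
    linarith
  have e3 : 4 * ε ≤ δ3 := by
    have : min (min δ1 δ2) (min δ3 r) ≤ δ3 := (min_le_right _ _).trans (min_le_left _ _)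
    linarith
  have e4 : 4 * ε ≤ r := by
    have : min (min δ1 δ2) (min δ3 r) ≤ r := (min_le_right _ _).trans (min_le_right _ _)
    linarith
  have f1 := Int.floor_le (cs x)
  have f2 := Int.floor_le (ct x)
  have f3 := Int.floor_le (cs x + ct x)
  refine ⟨pt (cs x + ε) (ct x + ε), hb ?_, ?_, ?_, ?_⟩
  · rw [Metric.mem_ball]
    have := dist_sq (pt (cs x + ε) (ct x + ε)) x
    simp only [cs_pt, ct_pt] at this
    have h4 : dist (pt (cs x + ε) (ct x + ε)) x ^ 2 < r ^ 2 := by rw [this]; nlinarith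
    exact lt_of_pow_lt_pow_left₀ 2 hr.le h4
  · intro n; rw [cs_pt]; exact not_int (m := ⌊cs x⌋) (by linarith) (by linarith) n
  · intro n; rw [ct_pt]; exact not_int (m := ⌊ct x⌋) (by linarith) (by linarith) n
  · intro n; rw [cs_pt, ct_pt]; exact not_int (m := ⌊cs x + ct x⌋) (by linarith) (by linarith) n

theorem loc {W : ℤ → ℤ → Prop} (hW : Tiling W) {y : E} (g1 : ∀ n : ℤ, cs y ≠ n) (g2 : ∀ n : ℤ, ct y ≠ n)
    (g3 : ∀ n : ℤ, cs y + ct y ≠ n) {u v : ℤ} (h : W u v) (hy : y ∈ Lz u v) :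
    (cs y + ct y < ⌊cs y⌋ + ⌊ct y⌋ + 1 → (u = 2 * ⌊cs y⌋ + 1 ∧ v = 2 * ⌊ct y⌋ + 1) ∨
      (u = 2 * ⌊cs y⌋ + 1 ∧ v = 2 * ⌊ct y⌋) ∨ (u = 2 * ⌊cs y⌋ ∧ v = 2 * ⌊ct y⌋ + 1)) ∧
    (⌊cs y⌋ + ⌊ct y⌋ + 1 < cs y + ct y → (u = 2 * ⌊cs y⌋ + 1 ∧ v = 2 * ⌊ct y⌋ + 1) ∨
      (u = 2 * ⌊cs y⌋ + 1 ∧ v = 2 * ⌊ct y⌋ + 2) ∨ (u = 2 * ⌊cs y⌋ + 2 ∧ v = 2 * ⌊ct y⌋ + 1)) := by
  have hv := hW.valid h
  rw [mem_Lz] at hy
  obtain ⟨y1, y2, y3⟩ := hy
  have a1 := Int.floor_le (cs y)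
  have a2 := Int.lt_floor_add_one (cs y)
  have b1 := Int.floor_le (ct y)
  have b2 := Int.lt_floor_add_one (ct y)
  have a3 : (⌊cs y⌋ : ℝ) < cs y := lt_of_le_of_ne a1 (fun h => g1 _ h.symm)
  have b3 : (⌊ct y⌋ : ℝ) < ct y := lt_of_le_of_ne b1 (fun h => g2 _ h.symm)
  set i := ⌊cs y⌋
  set j := ⌊ct y⌋
  have key : ∀ (z : ℝ) (m k : ℤ), ¬ 2 ∣ k → |2 * z - k| ≤ 1 → (m : ℝ) < z → z < m + 1 → k = 2 * m + 1 := by
    intro z m k hk hz h1 h2
    rw [abs_le] at hz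
    have h3 : (k : ℝ) < 2 * m + 3 := by linarith [hz.1]
    have h4 : (2 * m - 1 : ℝ) < k := by linarith [hz.2]
    have h5 : k < 2 * m + 3 := by exact_mod_cast h3
    have h6 : 2 * m - 1 < k := by exact_mod_cast h4
    omega
  have ku : ¬ 2 ∣ u → u = 2 * i + 1 := fun q => key _ _ _ q (y1 q) a3 a2
  have kv : ¬ 2 ∣ v → v = 2 * j + 1 := fun q => key _ _ _ q (y2 q) b3 b2
  constructor
  · intro hs
    have kw : ¬ 2 ∣ (u + v) → u + v = 2 * (i + j) + 1 := fun q => by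
      refine key (cs y + ct y) _ _ q ?_ (by push_cast; linarith) (by push_cast; linarith)
      push_cast; exact y3 q
    omega
  · intro hs
    have kw : ¬ 2 ∣ (u + v) → u + v = 2 * (i + j + 1) + 1 := fun q => by
      refine key (cs y + ct y) _ _ q ?_ (by push_cast; linarith) (by push_cast; linarith)
      push_cast; exact y3 q
    omega

theorem unique_generic {W : ℤ → ℤ → Prop} (hW : Tiling W) {y : E} (g1 : ∀ n : ℤ, cs y ≠ n) (g2 : ∀ n : ℤ, ct y ≠ n)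
    (g3 : ∀ n : ℤ, cs y + ct y ≠ n) {u v u' v' : ℤ} (h : W u v) (hy : y ∈ Lz u v)
    (h' : W u' v') (hy' : y ∈ Lz u' v') : u = u' ∧ v = v' := by
  have l1 := loc hW g1 g2 g3 h hy
  have l2 := loc hW g1 g2 g3 h' hy'
  have hne : cs y + ct y ≠ ⌊cs y⌋ + ⌊ct y⌋ + 1 := by
    have := g3 (⌊cs y⌋ + ⌊ct y⌋ + 1)
    push_cast at this
    exact this
  rcases lt_or_gt_of_ne hne with hs | hs
  · have o := hW.up ⌊cs y⌋ ⌊ct y⌋
    unfold One3 at o
    rcases l1.1 hs with ⟨e1, e2⟩ | ⟨e1, e2⟩ | ⟨e1, e2⟩ <;> rcases l2.1 hs with ⟨e3, e4⟩ | ⟨e3, e4⟩ | ⟨e3, e4⟩ <;>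
    rw [e1, e2] at h <;> rw [e3, e4] at h' <;> first | (constructor <;> omega) | (exfalso; tauto)
  · have o := hW.dn ⌊cs y⌋ ⌊ct y⌋
    unfold One3 at o
    rcases l1.2 hs with ⟨e1, e2⟩ | ⟨e1, e2⟩ | ⟨e1, e2⟩ <;> rcases l2.2 hs with ⟨e3, e4⟩ | ⟨e3, e4⟩ | ⟨e3, e4⟩ <;>
    rw [e1, e2] at h <;> rw [e3, e4] at h' <;> first | (constructor <;> omega) | (exfalso; tauto)

theorem disj {W : ℤ → ℤ → Prop} (hW : Tiling W) :
    (TT W).Pairwise (fun A B => Disjoint (interior A) (interior B)) := by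
  rintro A ⟨u, v, h, rfl⟩ B ⟨u', v', h', rfl⟩ hne
  rw [Set.disjoint_left]
  intro x hx hx'
  obtain ⟨y, ⟨hy, hy'⟩, g1, g2, g3⟩ := generic (isOpen_interior.inter isOpen_interior) (x := x) ⟨hx, hx'⟩
  have := unique_generic hW g1 g2 g3 h (interior_subset hy) h' (interior_subset hy')
  exact hne (by rw [this.1, this.2])

theorem mem_q (p q u v : ℤ) : pt (p / 4) (q / 4) ∈ Lz u v ↔ (¬ 2 ∣ u → |p - 2 * u| ≤ 2) ∧
    (¬ 2 ∣ v → |q - 2 * v| ≤ 2) ∧ (¬ 2 ∣ (u + v) → |p + q - 2 * (u + v)| ≤ 2) := by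
  rw [mem_Lz]
  simp only [cs_pt, ct_pt]
  have key : ∀ (z : ℝ) (m k : ℤ), z = m / 4 → (|2 * z - k| ≤ 1 ↔ |m - 2 * k| ≤ 2) := by
    rintro z m k rfl
    rw [abs_le, abs_le]
    constructor
    · rintro ⟨h1, h2⟩
      constructor
      · have : (-2 : ℝ) ≤ m - 2 * k := by linarith
        exact_mod_cast this
      · have : (m : ℝ) - 2 * k ≤ 2 := by linarith
        exact_mod_cast this
    · rintro ⟨h1, h2⟩
      have h3 : (-2 : ℝ) ≤ m - 2 * k := by exact_mod_cast h1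
      have h4 : (m : ℝ) - 2 * k ≤ 2 := by exact_mod_cast h2
      constructor <;> linarith
  rw [key (p / 4) p u rfl, key (q / 4) q v rfl]
  have e : (u : ℝ) + v = ((u + v : ℤ) : ℝ) := by push_cast; rfl
  rw [e, key _ (p + q) (u + v) (by push_cast; ring)]

theorem Lz_inj {u v u' v' : ℤ} (h : ¬ (2 ∣ u ∧ 2 ∣ v)) (h' : ¬ (2 ∣ u' ∧ 2 ∣ v')) (e : Lz u v = Lz u' v') :
    u = u' ∧ v = v' := by
  have k : ∀ p q : ℤ, ((¬ 2 ∣ u → |p - 2 * u| ≤ 2) ∧
    (¬ 2 ∣ v → |q - 2 * v| ≤ 2) ∧ (¬ 2 ∣ (u + v) → |p + q - 2 * (u + v)| ≤ 2)) → ((¬ 2 ∣ u' → |p - 2 * u'| ≤ 2) ∧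
    (¬ 2 ∣ v' → |q - 2 * v'| ≤ 2) ∧ (¬ 2 ∣ (u' + v') → |p + q - 2 * (u' + v')| ≤ 2)) := by
    intro p q
    rw [← mem_q, ← mem_q, e]
    exact id
  simp only [abs_le] at k
  by_cases hu : 2 ∣ u
  · have k1 := k (2 * u + 1) (2 * v - 1) ⟨by omega, by omega, by omega⟩
    have k2 := k (2 * u - 1) (2 * v + 1) ⟨by omega, by omega, by omega⟩
    omega
  · by_cases hv : 2 ∣ v
    · have k1 := k (2 * u - 1) (2 * v + 1) ⟨by omega, by omega, by omega⟩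
      have k2 := k (2 * u + 1) (2 * v - 1) ⟨by omega, by omega, by omega⟩
      omega
    · have k1 := k (2 * u - 1) (2 * v - 1) ⟨by omega, by omega, by omega⟩
      have k2 := k (2 * u + 1) (2 * v + 1) ⟨by omega, by omega, by omega⟩
      omega


theorem ax_mul (g h : Aff) (u v : ℤ) : ax (g * h) u v = ax g (ax h u v) (ay h u v) := by
  simp only [ax, ay, Aff.mul_a, Aff.mul_b, Aff.mul_e]; ring
theorem ay_mul (g h : Aff) (u v : ℤ) : ay (g * h) u v = ay g (ax h u v) (ay h u v) := by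
  simp only [ax, ay, Aff.mul_c, Aff.mul_d, Aff.mul_f]; ring
theorem ax_one (u v : ℤ) : ax 1 u v = u := by simp [ax]
theorem ay_one (u v : ℤ) : ay 1 u v = v := by simp [ay]

theorem image_Lz {w : Aff} (hw : Good w) (u v : ℤ) : gam w hw '' Lz u v = Lz (ax w u v) (ay w u v) := by
  ext x
  constructor
  · rintro ⟨y, hy, rfl⟩
    exact (mem_Lz_act hw u v y).mpr hy
  · intro hx
    refine ⟨(gam w hw).symm x, ?_, (gam w hw).apply_symm_apply x⟩
    rw [← mem_Lz_act hw, ← gam_apply w hw, (gam w hw).apply_symm_apply]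
    exact hx

theorem exists_gam {u v : ℤ} (h : ¬ (2 ∣ u ∧ 2 ∣ v)) : ∃ w, Good w ∧ ax w 1 1 = u ∧ ay w 1 1 = v := by
  by_cases hu : 2 ∣ u
  · refine ⟨⟨-1, -1, 1, 0, (u+2)/2, (v-1)/2⟩, by unfold Good Aff.is; simp, ?_, ?_⟩
    · simp [ax]; omega
    · simp [ay]; omega
  · by_cases hv : 2 ∣ v
    · refine ⟨⟨0, -1, 1, 1, (u+1)/2, (v-2)/2⟩, by unfold Good Aff.is; simp, ?_, ?_⟩
      · simp [ax]; omega
      · simp [ay]; omega
    · refine ⟨⟨1, 0, 0, 1, (u-1)/2, (v-1)/2⟩, by unfold Good Aff.is; simp, ?_, ?_⟩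
      · simp [ax]; omega
      · simp [ay]; omega

theorem mem_P {x : E} : x ∈ Lz 1 1 ↔ (0 ≤ cs x ∧ cs x ≤ 1) ∧ (0 ≤ ct x ∧ ct x ≤ 1) := by
  rw [mem_Lz]
  simp only [abs_le]
  constructor
  · rintro ⟨h1, h2, -⟩
    have h1 := h1 (by omega)
    have h2 := h2 (by omega)
    push_cast at h1 h2
    refine ⟨⟨?_, ?_⟩, ?_, ?_⟩ <;> linarith [h1.1, h1.2, h2.1, h2.2]
  · rintro ⟨⟨h1, h2⟩, h3, h4⟩
    refine ⟨fun _ => ?_, fun _ => ?_, fun q => absurd (by omega) q⟩ <;> push_cast <;> constructor <;> linarith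

theorem far {x y : E} (hx : x ∈ Lz 1 1) (hy : y ∈ Lz 1 1) (h : dist x y ^ 2 = 3) :
    (x = pt 0 0 ∧ y = pt 1 1) ∨ (x = pt 1 1 ∧ y = pt 0 0) := by
  rw [mem_P] at hx hy
  obtain ⟨⟨a1, a2⟩, a3, a4⟩ := hx
  obtain ⟨⟨b1, b2⟩, b3, b4⟩ := hy
  rw [dist_sq] at h
  have ea : (cs x - cs y) ^ 2 ≤ 1 := by nlinarith
  have eb : (ct x - ct y) ^ 2 ≤ 1 := by nlinarith
  have e1 : (cs x - cs y - (ct x - ct y)) ^ 2 ≤ 0 := by nlinarith
  have e2 : cs x - cs y = ct x - ct y := by nlinarith [sq_nonneg (cs x - cs y - (ct x - ct y))]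
  have e3 : (cs x - cs y) ^ 2 = 1 := by rw [← e2] at h; nlinarith
  have e4 : cs x - cs y = 1 ∨ cs x - cs y = -1 := by
    have : (cs x - cs y - 1) * (cs x - cs y + 1) = 0 := by linear_combination e3
    rcases mul_eq_zero.mp this with h | h
    · left; linarith
    · right; linarith
  rcases e4 with e4 | e4
  · right
    constructor
    · rw [← pt_cs_ct x, pt_inj]; constructor <;> linarith
    · rw [← pt_cs_ct y, pt_inj]; constructor <;> linarith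
  · left
    constructor
    · rw [← pt_cs_ct x, pt_inj]; constructor <;> linarith
    · rw [← pt_cs_ct y, pt_inj]; constructor <;> linarith

theorem corner {x : E} (h1 : dist x (pt 0 0) ^ 2 = 1) (h2 : dist x (pt 1 1) ^ 2 = 1) :
    x = pt 1 0 ∨ x = pt 0 1 := by
  rw [dist_sq] at h1 h2
  simp only [cs_pt, ct_pt] at h1 h2
  have e1 : ct x = 1 - cs x := by linarith
  rw [e1] at h1
  have e2 : cs x * (cs x - 1) = 0 := by nlinarith
  rcases mul_eq_zero.mp e2 with e3 | e3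
  · right; rw [← pt_cs_ct x, pt_inj]; constructor <;> linarith
  · left; rw [← pt_cs_ct x, pt_inj]; constructor <;> linarith

theorem fix3 {f : E ≃ᵢ E} (hA : f (pt 0 0) = pt 0 0) (hB : f (pt 1 1) = pt 1 1)
    (hC : f (pt 1 0) = pt 1 0) : f = 1 := by
  ext1 x
  have d1 : dist (f x) (pt 0 0) ^ 2 = dist x (pt 0 0) ^ 2 := by
    conv_lhs => rw [← hA]
    rw [f.dist_eq]
  have d2 : dist (f x) (pt 1 1) ^ 2 = dist x (pt 1 1) ^ 2 := by
    conv_lhs => rw [← hB]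
    rw [f.dist_eq]
  have d3 : dist (f x) (pt 1 0) ^ 2 = dist x (pt 1 0) ^ 2 := by
    conv_lhs => rw [← hC]
    rw [f.dist_eq]
  rw [dist_sq, dist_sq] at d1 d2 d3
  simp only [cs_pt, ct_pt] at d1 d2 d3
  change f x = x
  rw [← pt_cs_ct (f x)]
  conv_rhs => rw [← pt_cs_ct x]
  rw [pt_inj]
  constructor <;> linarith

theorem rigid {f : E ≃ᵢ E} {w : Aff} (hw : Good w) (hA : f (pt 0 0) = act w (pt 0 0))
    (hB : f (pt 1 1) = act w (pt 1 1)) (hC : f (pt 1 0) = act w (pt 1 0)) : f = gam w hw := by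
  have h : (gam w hw)⁻¹ * f = 1 := by
    apply fix3
    · change (gam w hw).symm (f _) = _
      rw [hA, ← gam_apply w hw, IsometryEquiv.symm_apply_apply]
    · change (gam w hw).symm (f _) = _
      rw [hB, ← gam_apply w hw, IsometryEquiv.symm_apply_apply]
    · change (gam w hw).symm (f _) = _
      rw [hC, ← gam_apply w hw, IsometryEquiv.symm_apply_apply]
  have := congrArg (fun F => gam w hw * F) h
  simpa using this

theorem stab {g : E ≃ᵢ E} (hg : g '' Lz 1 1 = Lz 1 1) : ∃ w, ∃ hw : Good w, g = gam w hw := by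
  have A0 : pt 0 0 ∈ Lz 1 1 := by rw [mem_P]; simp
  have B0 : pt 1 1 ∈ Lz 1 1 := by rw [mem_P]; simp
  have gA : g (pt 0 0) ∈ Lz 1 1 := hg ▸ Set.mem_image_of_mem g A0
  have gB : g (pt 1 1) ∈ Lz 1 1 := hg ▸ Set.mem_image_of_mem g B0
  have dAB : dist (g (pt 0 0)) (g (pt 1 1)) ^ 2 = 3 := by
    rw [g.dist_eq, dist_sq]; simp; norm_num
  have dCA : dist (g (pt 1 0)) (g (pt 0 0)) ^ 2 = 1 := by
    rw [g.dist_eq, dist_sq]; simp
  have dCB : dist (g (pt 1 0)) (g (pt 1 1)) ^ 2 = 1 := by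
    rw [g.dist_eq, dist_sq]; simp
  rcases far gA gB dAB with ⟨h1, h2⟩ | ⟨h1, h2⟩
  · rw [h1] at dCA; rw [h2] at dCB
    rcases corner dCA dCB with h3 | h3
    · refine ⟨1, Good.one, rigid _ ?_ ?_ ?_⟩
      · rw [h1, act_one]
      · rw [h2, act_one]
      · rw [h3, act_one]
    · refine ⟨⟨0, 1, 1, 0, 0, 0⟩, by unfold Good Aff.is; simp, rigid _ ?_ ?_ ?_⟩
      · rw [h1]; simp [act]
      · rw [h2]; simp [act]
      · rw [h3]; simp [act]
  · rw [h1] at dCA; rw [h2] at dCB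
    rcases corner dCB dCA with h3 | h3
    · refine ⟨⟨0, -1, -1, 0, 1, 1⟩, by unfold Good Aff.is; simp, rigid _ ?_ ?_ ?_⟩
      · rw [h1]; simp [act]
      · rw [h2]; simp [act]
      · rw [h3]; simp [act]
    · refine ⟨⟨-1, 0, 0, -1, 1, 1⟩, by unfold Good Aff.is; simp, rigid _ ?_ ?_ ?_⟩
      · rw [h1]; simp [act]
      · rw [h2]; simp [act]
      · rw [h3]; simp [act]

/-- invariance of `W` under `w` -/
def Inv (W : ℤ → ℤ → Prop) (w : Aff) : Prop := ∀ u v, W u v ↔ W (ax w u v) (ay w u v)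

/-- the set of symmetries, as it occurs in the frozen statement -/
def Sy (T : Set (Set E)) : Set (E ≃ᵢ E) := {g | (fun A : Set E => (⇑g) '' A) '' T = T}

theorem inv_apply {w : Aff} (hw : Good w) (u v : ℤ) :
    ax w (ax (inv w) u v) (ay (inv w) u v) = u ∧ ay w (ax (inv w) u v) (ay (inv w) u v) = v := by
  rw [← ax_mul, ← ay_mul, hw.mul_inv, ax_one, ay_one]
  exact ⟨rfl, rfl⟩

theorem apply_inv {w : Aff} (hw : Good w) (u v : ℤ) :
    ax (inv w) (ax w u v) (ay w u v) = u ∧ ay (inv w) (ax w u v) (ay w u v) = v := by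
  rw [← ax_mul, ← ay_mul, hw.inv_mul, ax_one, ay_one]
  exact ⟨rfl, rfl⟩

theorem valid_iff {w : Aff} (hw : Good w) (u v : ℤ) :
    (2 ∣ ax w u v ∧ 2 ∣ ay w u v) ↔ (2 ∣ u ∧ 2 ∣ v) := by
  have key : ∀ (w : Aff) (u v : ℤ), (2 ∣ u ∧ 2 ∣ v) → (2 ∣ ax w u v ∧ 2 ∣ ay w u v) := by
    rintro w u v ⟨⟨a, rfl⟩, ⟨b, rfl⟩⟩
    exact ⟨⟨w.a * a + w.b * b + w.e, by unfold ax; ring⟩, ⟨w.c * a + w.d * b + w.f, by unfold ay; ring⟩⟩
  refine ⟨fun h => ?_, key w u v⟩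
  have := key (inv w) _ _ h
  rwa [(apply_inv hw u v).1, (apply_inv hw u v).2] at this

theorem mem_Sy_of_inv {W : ℤ → ℤ → Prop} {w : Aff} (hw : Good w) (h : Inv W w) : gam w hw ∈ Sy (TT W) := by
  change _ '' _ = _
  ext A
  constructor
  · rintro ⟨B, ⟨u, v, hB, rfl⟩, rfl⟩
    exact ⟨_, _, (h u v).mp hB, image_Lz hw u v⟩
  · rintro ⟨u, v, hA, rfl⟩
    refine ⟨Lz (ax (inv w) u v) (ay (inv w) u v), ⟨_, _, ?_, rfl⟩, ?_⟩
    · rw [h, (inv_apply hw u v).1, (inv_apply hw u v).2]; exact hA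
    · change gam w hw '' _ = _
      rw [image_Lz, (inv_apply hw u v).1, (inv_apply hw u v).2]

theorem exists_mem {W : ℤ → ℤ → Prop} (hW : Tiling W) : ∃ u v, W u v := by
  rcases hW.up 0 0 with h | h | h
  · exact ⟨_, _, h.1⟩
  · exact ⟨_, _, h.2.1⟩
  · exact ⟨_, _, h.2.2⟩

theorem sym_form {W : ℤ → ℤ → Prop} (hW : Tiling W) {g : E ≃ᵢ E} (hg : g ∈ Sy (TT W)) :
    ∃ w, ∃ hw : Good w, g = gam w hw ∧ Inv W w := by
  have hg' : (fun A : Set E => (⇑g) '' A) '' (TT W) = TT W := hg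
  have st1 : ∃ w, ∃ hw : Good w, g = gam w hw := by
    obtain ⟨u, v, h⟩ := exists_mem hW
    have h1 : g '' Lz u v ∈ TT W := by
      rw [← hg']
      exact ⟨_, ⟨u, v, h, rfl⟩, rfl⟩
    obtain ⟨u', v', h', e⟩ := h1
    obtain ⟨w, hw, e1, e2⟩ := exists_gam (hW.valid h)
    obtain ⟨w', hw', e1', e2'⟩ := exists_gam (hW.valid h')
    have f1 : gam w hw '' Lz 1 1 = Lz u v := by rw [image_Lz, e1, e2]
    have f2 : gam w' hw' '' Lz 1 1 = Lz u' v' := by rw [image_Lz, e1', e2']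
    have f3 : ((gam w' hw')⁻¹ * g * gam w hw) '' Lz 1 1 = Lz 1 1 := by
      have e3 : ((gam w' hw')⁻¹ * g * gam w hw) '' Lz 1 1 = (gam w' hw').symm '' (g '' (gam w hw '' Lz 1 1)) := by
        rw [Set.image_image, Set.image_image]; rfl
      rw [e3, f1, e, ← f2, Set.image_image]
      simp only [IsometryEquiv.symm_apply_apply, Set.image_id']
    obtain ⟨k, hk, e4⟩ := stab f3
    refine ⟨w' * k * inv w, (hw'.mul hk).mul hw.inv, ?_⟩
    rw [gam_mul (hw'.mul hk) hw.inv, gam_mul hw' hk, ← e4]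
    have e5 : gam (inv w) hw.inv = (gam w hw)⁻¹ := by
      ext1 x; rfl
    rw [e5]; group
  obtain ⟨w, hw, rfl⟩ := st1
  refine ⟨w, hw, rfl, fun u v => ⟨fun h => ?_, fun h => ?_⟩⟩
  · have h1 : gam w hw '' Lz u v ∈ TT W := by
      rw [← hg']
      exact ⟨_, ⟨u, v, h, rfl⟩, rfl⟩
    obtain ⟨u', v', h', e⟩ := h1
    rw [image_Lz] at e
    have hv : ¬ (2 ∣ ax w u v ∧ 2 ∣ ay w u v) := by
      rw [valid_iff hw]; exact hW.valid h
    obtain ⟨e1, e2⟩ := Lz_inj hv (hW.valid h') e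
    rw [e1, e2]; exact h'
  · have h1 : Lz (ax w u v) (ay w u v) ∈ TT W := ⟨_, _, h, rfl⟩
    rw [← hg'] at h1
    obtain ⟨B, ⟨u', v', h', rfl⟩, e⟩ := h1
    change gam w hw '' _ = _ at e
    rw [← image_Lz hw] at e
    have e := (gam w hw).injective.image_injective e
    have hv : ¬ (2 ∣ u ∧ 2 ∣ v) := by
      rw [← valid_iff hw]; exact hW.valid h
    obtain ⟨e1, e2⟩ := Lz_inj (hW.valid h') hv e
    rw [← e1, ← e2]; exact h'

end Pool.Agent.Helper989.Tile
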