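import Mathlib
import Pool.Agent.Helper989.TileGrp

set_option autoImplicit false
set_option linter.unusedVariables false
set_option linter.unusedSimpArgs false
set_option linter.unnecessarySeqFocus false

namespace Pool.Agent.Helper989.Tile

section sub

variable {M : Type*} [Monoid M] {S : Submonoid M}

theorem pA_sub : pA S ↔ ∃ g ∈ S, g ≠ 1 ∧ g * g = 1 := by
  simp only [pA, Subtype.exists, Subtype.forall, ne_eq, OneMemClass.one_def, MulMemClass.mk_mul_mk, Subtype.mk.injEq,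
    exists_prop]
theorem pB_sub : pB S ↔ ∃ g ∈ S, g ≠ 1 ∧ g * g * g = 1 := by
  simp only [pB, Subtype.exists, Subtype.forall, ne_eq, OneMemClass.one_def, MulMemClass.mk_mul_mk, Subtype.mk.injEq,
    exists_prop]
theorem pC_sub : pC S ↔ ∃ g ∈ S, g * g ≠ 1 ∧ g * g * g ≠ 1 ∧ g * g * g * (g * g * g) = 1 := by
  simp only [pC, Subtype.exists, Subtype.forall, ne_eq, OneMemClass.one_def, MulMemClass.mk_mul_mk, Subtype.mk.injEq,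
    exists_prop]
theorem pD_sub : pD S ↔ ∀ g ∈ S, ∀ h ∈ S, g * h = h * g := by
  simp only [pD, Subtype.exists, Subtype.forall, ne_eq, OneMemClass.one_def, MulMemClass.mk_mul_mk, Subtype.mk.injEq,
    exists_prop]
theorem pK_sub : pK S ↔ ∃ s ∈ S, ∃ t ∈ S, s * s = 1 ∧ t * t = 1 ∧ s ≠ 1 ∧ t ≠ 1 ∧ s ≠ t ∧ s * t = t * s := by
  simp only [pK, Subtype.exists, Subtype.forall, ne_eq, OneMemClass.one_def, MulMemClass.mk_mul_mk, Subtype.mk.injEq,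
    exists_prop]
theorem pL_sub : pL S ↔ ∃ s ∈ S, s ≠ 1 ∧ s * s = 1 ∧ ∀ h ∈ S, h * s = s * h → h = 1 ∨ h = s := by
  simp only [pL, Subtype.exists, Subtype.forall, ne_eq, OneMemClass.one_def, MulMemClass.mk_mul_mk, Subtype.mk.injEq,
    exists_prop]
theorem pN_sub : pN S ↔ ∀ s ∈ S, s ≠ 1 → s * s = 1 → ∀ h ∈ S, h * s = s * h → h = 1 ∨ h = s := by
  simp only [pN, Subtype.exists, Subtype.forall, ne_eq, OneMemClass.one_def, MulMemClass.mk_mul_mk, Subtype.mk.injEq,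
    exists_prop]
theorem pM_sub : pM S ↔ ∀ c ∈ S, c * c * c = 1 → ∃ s ∈ S, s * s = 1 ∧ s * c * s = c * c := by
  simp only [pM, Subtype.exists, Subtype.forall, ne_eq, OneMemClass.one_def, MulMemClass.mk_mul_mk, Subtype.mk.injEq,
    exists_prop]
theorem pQ_sub : pQ S ↔ ∀ s ∈ S, s ≠ 1 → s * s = 1 → ∀ h ∈ S, h * s = s * h →
    ∃ g ∈ S, g * g = h ∨ g * g = h * s := by
  simp only [pQ, Subtype.exists, Subtype.forall, ne_eq, OneMemClass.one_def, MulMemClass.mk_mul_mk, Subtype.mk.injEq,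
    exists_prop]
theorem pO_sub : pO S ↔ ∀ g ∈ S, ∀ h ∈ S, g * g ≠ 1 → h * h ≠ 1 → g * h = h * g := by
  simp only [pO, Subtype.exists, Subtype.forall, ne_eq, OneMemClass.one_def, MulMemClass.mk_mul_mk, Subtype.mk.injEq,
    exists_prop]

end sub

def C0 (w : Aff) : Prop := w.is 1 0 0 1 ∧ 5 ∣ w.e ∧ 5 ∣ w.f
def C1 (w : Aff) : Prop := 3 ∣ w.e ∧ ((w.is 1 0 0 1 ∧ 6 ∣ w.f) ∨ (w.is 1 1 0 (-1) ∧ w.f % 6 = 3))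
def C2 (w : Aff) : Prop := (w.is 1 0 0 1 ∨ w.is (-1) (-1) 1 0 ∨ w.is 0 1 (-1) (-1)) ∧ 6 ∣ w.e ∧ 6 ∣ w.f
def C3 (w : Aff) : Prop := (w.is 1 0 0 1 ∨ w.is (-1) 0 0 (-1) ∨ w.is 0 (-1) 1 1 ∨ w.is (-1) (-1) 1 0 ∨
  w.is 0 1 (-1) (-1) ∨ w.is 1 1 (-1) 0) ∧ 6 ∣ w.e ∧ 6 ∣ w.f
def C4 (w : Aff) : Prop := (w.is 1 0 0 1 ∨ w.is (-1) 0 0 (-1) ∨ w.is 0 (-1) 1 1 ∨ w.is (-1) (-1) 1 0 ∨
  w.is 0 1 (-1) (-1) ∨ w.is 1 1 (-1) 0 ∨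
  w.is 0 1 1 0 ∨ w.is 0 (-1) (-1) 0 ∨ w.is 1 1 0 (-1) ∨ w.is (-1) (-1) 0 1 ∨
  w.is 1 0 (-1) (-1) ∨ w.is (-1) 0 1 1) ∧ 3 ∣ (w.e - w.f)
def C5 (w : Aff) : Prop := (w.is 1 0 0 1 ∨ w.is (-1) (-1) 1 0 ∨ w.is 0 1 (-1) (-1) ∨ w.is 1 1 0 (-1) ∨
  w.is (-1) 0 1 1 ∨ w.is 0 (-1) (-1) 0) ∧ 6 ∣ (w.e - w.f) ∧ 2 ∣ w.e
def C6 (w : Aff) : Prop := (w.is 1 0 0 1 ∨ w.is (-1) (-1) 1 0 ∨ w.is 0 1 (-1) (-1) ∨ w.is 1 1 0 (-1) ∨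
  w.is (-1) 0 1 1 ∨ w.is 0 (-1) (-1) 0) ∧ 3 ∣ w.e ∧ 3 ∣ w.f
def C7 (w : Aff) : Prop := (w.is 1 0 0 1 ∨ w.is (-1) 0 0 (-1) ∨ w.is 1 1 0 (-1) ∨ w.is (-1) (-1) 0 1) ∧
  8 ∣ (2 * w.e + w.f) ∧ 2 ∣ w.f
def C8 (w : Aff) : Prop := w.is 1 0 0 1 ∨ w.is (-1) 0 0 (-1) ∨ w.is 0 1 1 0 ∨ w.is 0 (-1) (-1) 0
def C9 (w : Aff) : Prop := (w.is 1 0 0 1 ∨ w.is (-1) 0 0 (-1)) ∧ 3 ∣ w.e
def C10 (w : Aff) : Prop := 3 ∣ w.e ∧ (((w.is 1 0 0 1 ∨ w.is (-1) 0 0 (-1)) ∧ 6 ∣ w.f) ∨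
  ((w.is 1 1 0 (-1) ∨ w.is (-1) (-1) 0 1) ∧ w.f % 6 = 3))
def C11 (w : Aff) : Prop := ((w.is 1 0 0 1 ∨ w.is 1 1 0 (-1)) ∧ 2 ∣ w.f) ∨
  ((w.is (-1) 0 0 (-1) ∨ w.is (-1) (-1) 0 1) ∧ ¬ 2 ∣ w.f)
def C12 (w : Aff) : Prop := (w.is 1 0 0 1 ∨ w.is 1 1 0 (-1)) ∧ 6 ∣ w.f
def C13 (w : Aff) : Prop := (w.is 1 0 0 1 ∨ w.is 1 1 0 (-1)) ∧ 4 ∣ w.e ∧ 4 ∣ w.f

theorem typ0 {S : Submonoid Aff} (hS : ∀ w, w ∈ S ↔ C0 w) : typ S = 0 := by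
  have hA : ¬ pA S := by
    rw [pA_sub]; rintro ⟨⟨a,b,c,d,e,f⟩, hg, h1, h2⟩
    rw [hS] at hg; simp only [C0, Aff.is] at hg
    obtain ⟨⟨rfl, rfl, rfl, rfl⟩, h3, h4⟩ := hg
    simp [Aff.ext_iff] at h1 h2
    omega
  have hB : ¬ pB S := by
    rw [pB_sub]; rintro ⟨⟨a,b,c,d,e,f⟩, hg, h1, h2⟩
    rw [hS] at hg; simp only [C0, Aff.is] at hg
    obtain ⟨⟨rfl, rfl, rfl, rfl⟩, h3, h4⟩ := hg
    simp [Aff.ext_iff] at h1 h2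
    omega
  have hD : pD S := by
    rw [pD_sub]; rintro ⟨a,b,c,d,e,f⟩ hg ⟨a',b',c',d',e',f'⟩ hg'
    rw [hS] at hg hg'; simp only [C0, Aff.is] at hg hg'
    obtain ⟨⟨rfl, rfl, rfl, rfl⟩, h3, h4⟩ := hg
    obtain ⟨⟨rfl, rfl, rfl, rfl⟩, h3', h4'⟩ := hg'
    simp [Aff.ext_iff]
    omega
  simp [typ, tf, hA, hB, hD]

theorem typ1 {S : Submonoid Aff} (hS : ∀ w, w ∈ S ↔ C1 w) : typ S = 1 := by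
  have hA : ¬ pA S := by
    rw [pA_sub]; rintro ⟨⟨a,b,c,d,e,f⟩, hg, h1, h2⟩
    rw [hS] at hg; simp only [C1, Aff.is] at hg
    obtain ⟨h3, ⟨⟨rfl, rfl, rfl, rfl⟩, h4⟩ | ⟨⟨rfl, rfl, rfl, rfl⟩, h4⟩⟩ := hg <;>
    simp [Aff.ext_iff] at h1 h2 <;>
    omega
  have hB : ¬ pB S := by
    rw [pB_sub]; rintro ⟨⟨a,b,c,d,e,f⟩, hg, h1, h2⟩
    rw [hS] at hg; simp only [C1, Aff.is] at hg
    obtain ⟨h3, ⟨⟨rfl, rfl, rfl, rfl⟩, h4⟩ | ⟨⟨rfl, rfl, rfl, rfl⟩, h4⟩⟩ := hg <;>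
    simp [Aff.ext_iff] at h1 h2 <;>
    omega
  have hD : ¬ pD S := by
    rw [pD_sub]; intro h
    have := h ⟨1,1,0,-1,0,3⟩ (by rw [hS]; simp [C1, Aff.is]) ⟨1,0,0,1,0,6⟩ (by rw [hS]; simp [C1, Aff.is])
    simp [Aff.ext_iff] at this
  simp [typ, tf, hA, hB, hD]

theorem typ2 {S : Submonoid Aff} (hS : ∀ w, w ∈ S ↔ C2 w) : typ S = 2 := by
  have hA : ¬ pA S := by
    rw [pA_sub]; rintro ⟨⟨a,b,c,d,e,f⟩, hg, h1, h2⟩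
    rw [hS] at hg; simp only [C2, Aff.is] at hg
    obtain ⟨⟨rfl, rfl, rfl, rfl⟩ | ⟨rfl, rfl, rfl, rfl⟩ | ⟨rfl, rfl, rfl, rfl⟩, h4⟩ := hg <;>
    simp [Aff.ext_iff] at h1 h2 <;>
    omega
  have hB : pB S := by
    rw [pB_sub]; exact ⟨⟨-1,-1,1,0,0,0⟩, by rw [hS]; simp [C2, Aff.is], by simp [Aff.ext_iff], by simp [Aff.ext_iff]⟩
  simp [typ, tf, hA, hB]

theorem typ3 {S : Submonoid Aff} (hS : ∀ w, w ∈ S ↔ C3 w) : typ S = 3 := by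
  have hA : pA S := by
    rw [pA_sub]; exact ⟨⟨-1,0,0,-1,0,0⟩, by rw [hS]; simp [C3, Aff.is], by simp [Aff.ext_iff], by simp [Aff.ext_iff]⟩
  have hB : pB S := by
    rw [pB_sub]; exact ⟨⟨-1,-1,1,0,0,0⟩, by rw [hS]; simp [C3, Aff.is], by simp [Aff.ext_iff], by simp [Aff.ext_iff]⟩
  have hC : pC S := by
    rw [pC_sub]; exact ⟨⟨0,-1,1,1,0,0⟩, by rw [hS]; simp [C3, Aff.is], by simp [Aff.ext_iff], by simp [Aff.ext_iff], by simp [Aff.ext_iff]⟩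
  have hK : ¬ pK S := by
    rw [pK_sub]; rintro ⟨⟨a,b,c,d,e,f⟩, hg, ⟨a',b',c',d',e',f'⟩, hg', h1, h2, h3, h4, h5, h6⟩
    rw [hS] at hg hg'; simp only [C3, Aff.is] at hg hg'
    obtain ⟨⟨rfl, rfl, rfl, rfl⟩ | ⟨rfl, rfl, rfl, rfl⟩ | ⟨rfl, rfl, rfl, rfl⟩ | ⟨rfl, rfl, rfl, rfl⟩ | ⟨rfl, rfl, rfl, rfl⟩ | ⟨rfl, rfl, rfl, rfl⟩, h7, h8⟩ := hg <;> obtain ⟨⟨rfl, rfl, rfl, rfl⟩ | ⟨rfl, rfl, rfl, rfl⟩ | ⟨rfl, rfl, rfl, rfl⟩ | ⟨rfl, rfl, rfl, rfl⟩ | ⟨rfl, rfl, rfl, rfl⟩ | ⟨rfl, rfl, rfl, rfl⟩, h7', h8'⟩ := hg' <;>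
    simp [Aff.ext_iff] at h1 h2 h3 h4 h5 h6 <;>
    omega
  simp [typ, tf, hA, hB, hC, hK]

theorem typ4 {S : Submonoid Aff} (hS : ∀ w, w ∈ S ↔ C4 w) : typ S = 4 := by
  have hA : pA S := by
    rw [pA_sub]; exact ⟨⟨-1,0,0,-1,0,0⟩, by rw [hS]; simp [C4, Aff.is], by simp [Aff.ext_iff], by simp [Aff.ext_iff]⟩
  have hB : pB S := by
    rw [pB_sub]; exact ⟨⟨-1,-1,1,0,0,0⟩, by rw [hS]; simp [C4, Aff.is], by simp [Aff.ext_iff], by simp [Aff.ext_iff]⟩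
  have hC : pC S := by
    rw [pC_sub]; exact ⟨⟨0,-1,1,1,0,0⟩, by rw [hS]; simp [C4, Aff.is], by simp [Aff.ext_iff], by simp [Aff.ext_iff], by simp [Aff.ext_iff]⟩
  have hK : pK S := by
    rw [pK_sub]; exact ⟨⟨-1,0,0,-1,0,0⟩, by rw [hS]; simp [C4, Aff.is], ⟨0,1,1,0,0,0⟩, by rw [hS]; simp [C4, Aff.is], by simp [Aff.ext_iff], by simp [Aff.ext_iff], by simp [Aff.ext_iff], by simp [Aff.ext_iff], by simp [Aff.ext_iff], by simp [Aff.ext_iff]⟩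
  simp [typ, tf, hA, hB, hC, hK]

theorem typ5 {S : Submonoid Aff} (hS : ∀ w, w ∈ S ↔ C5 w) : typ S = 5 := by
  have hA : pA S := by
    rw [pA_sub]; exact ⟨⟨1,1,0,-1,0,0⟩, by rw [hS]; simp [C5, Aff.is], by simp [Aff.ext_iff], by simp [Aff.ext_iff]⟩
  have hB : pB S := by
    rw [pB_sub]; exact ⟨⟨-1,-1,1,0,0,0⟩, by rw [hS]; simp [C5, Aff.is], by simp [Aff.ext_iff], by simp [Aff.ext_iff]⟩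
  have hC : ¬ pC S := by
    rw [pC_sub]; rintro ⟨⟨a,b,c,d,e,f⟩, hg, h1, h2, h3⟩
    rw [hS] at hg; simp only [C5, Aff.is] at hg
    obtain ⟨⟨rfl, rfl, rfl, rfl⟩ | ⟨rfl, rfl, rfl, rfl⟩ | ⟨rfl, rfl, rfl, rfl⟩ | ⟨rfl, rfl, rfl, rfl⟩ | ⟨rfl, rfl, rfl, rfl⟩ | ⟨rfl, rfl, rfl, rfl⟩, h4, h5⟩ := hg <;>
    simp [Aff.ext_iff] at h1 h2 h3 <;>
    omega
  have hM : pM S := by
    rw [pM_sub]; rintro ⟨a,b,c,d,e,f⟩ hg h1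
    rw [hS] at hg; simp only [C5, Aff.is] at hg
    obtain ⟨⟨rfl, rfl, rfl, rfl⟩ | ⟨rfl, rfl, rfl, rfl⟩ | ⟨rfl, rfl, rfl, rfl⟩ | ⟨rfl, rfl, rfl, rfl⟩ | ⟨rfl, rfl, rfl, rfl⟩ | ⟨rfl, rfl, rfl, rfl⟩, h4, h5⟩ := hg
    · simp [Aff.ext_iff] at h1
      refine ⟨1, S.one_mem, by simp, ?_⟩
      simp [Aff.ext_iff] <;> omega
    · refine ⟨⟨1,1,0,-1,-((e+2*f)/3),2*((e+2*f)/3)⟩, ?_, ?_, ?_⟩
      · rw [hS]; simp [C5, Aff.is]; omega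
      · simp [Aff.ext_iff] <;> omega
      · simp [Aff.ext_iff] <;> omega
    · refine ⟨⟨1,1,0,-1,-((f-e)/3),2*((f-e)/3)⟩, ?_, ?_, ?_⟩
      · rw [hS]; simp [C5, Aff.is]; omega
      · simp [Aff.ext_iff] <;> omega
      · simp [Aff.ext_iff] <;> omega
    · simp [Aff.ext_iff] at h1
    · simp [Aff.ext_iff] at h1
    · simp [Aff.ext_iff] at h1
  simp [typ, tf, hA, hB, hC, hM]

theorem typ6 {S : Submonoid Aff} (hS : ∀ w, w ∈ S ↔ C6 w) : typ S = 6 := by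
  have hA : pA S := by
    rw [pA_sub]; exact ⟨⟨1,1,0,-1,0,0⟩, by rw [hS]; simp [C6, Aff.is], by simp [Aff.ext_iff], by simp [Aff.ext_iff]⟩
  have hB : pB S := by
    rw [pB_sub]; exact ⟨⟨-1,-1,1,0,0,0⟩, by rw [hS]; simp [C6, Aff.is], by simp [Aff.ext_iff], by simp [Aff.ext_iff]⟩
  have hC : ¬ pC S := by
    rw [pC_sub]; rintro ⟨⟨a,b,c,d,e,f⟩, hg, h1, h2, h3⟩
    rw [hS] at hg; simp only [C6, Aff.is] at hg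
    obtain ⟨⟨rfl, rfl, rfl, rfl⟩ | ⟨rfl, rfl, rfl, rfl⟩ | ⟨rfl, rfl, rfl, rfl⟩ | ⟨rfl, rfl, rfl, rfl⟩ | ⟨rfl, rfl, rfl, rfl⟩ | ⟨rfl, rfl, rfl, rfl⟩, h4, h5⟩ := hg <;>
    simp [Aff.ext_iff] at h1 h2 h3 <;>
    omega
  have hM : ¬ pM S := by
    rw [pM_sub]; intro h
    obtain ⟨⟨a,b,c,d,e,f⟩, hg, h1, h2⟩ := h ⟨-1,-1,1,0,3,0⟩ (by rw [hS]; simp [C6, Aff.is]) (by simp [Aff.ext_iff])
    rw [hS] at hg; simp only [C6, Aff.is] at hg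
    obtain ⟨⟨rfl, rfl, rfl, rfl⟩ | ⟨rfl, rfl, rfl, rfl⟩ | ⟨rfl, rfl, rfl, rfl⟩ | ⟨rfl, rfl, rfl, rfl⟩ | ⟨rfl, rfl, rfl, rfl⟩ | ⟨rfl, rfl, rfl, rfl⟩, h4, h5⟩ := hg <;>
    simp [Aff.ext_iff] at h1 h2 <;> omega
  simp [typ, tf, hA, hB, hC, hM]

theorem typ7 {S : Submonoid Aff} (hS : ∀ w, w ∈ S ↔ C7 w) : typ S = 7 := by
  have hA : pA S := by
    rw [pA_sub]; exact ⟨⟨-1,0,0,-1,0,0⟩, by rw [hS]; simp [C7, Aff.is], by simp [Aff.ext_iff], by simp [Aff.ext_iff]⟩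
  have hB : ¬ pB S := by
    rw [pB_sub]; rintro ⟨⟨a,b,c,d,e,f⟩, hg, h1, h2⟩
    rw [hS] at hg; simp only [C7, Aff.is] at hg
    obtain ⟨⟨rfl, rfl, rfl, rfl⟩ | ⟨rfl, rfl, rfl, rfl⟩ | ⟨rfl, rfl, rfl, rfl⟩ | ⟨rfl, rfl, rfl, rfl⟩, h3, h4⟩ := hg <;>
    simp [Aff.ext_iff] at h1 h2 <;>
    omega
  have hK : pK S := by
    rw [pK_sub]; exact ⟨⟨1,1,0,-1,0,0⟩, by rw [hS]; simp [C7, Aff.is], ⟨-1,-1,0,1,0,0⟩, by rw [hS]; simp [C7, Aff.is], by simp [Aff.ext_iff], by simp [Aff.ext_iff], by simp [Aff.ext_iff], by simp [Aff.ext_iff], by simp [Aff.ext_iff], by simp [Aff.ext_iff]⟩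
  have hL : ¬ pL S := by
    rw [pL_sub]; rintro ⟨⟨a,b,c,d,e,f⟩, hg, h1, h2, h3⟩
    rw [hS] at hg; simp only [C7, Aff.is] at hg
    obtain ⟨⟨rfl, rfl, rfl, rfl⟩ | ⟨rfl, rfl, rfl, rfl⟩ | ⟨rfl, rfl, rfl, rfl⟩ | ⟨rfl, rfl, rfl, rfl⟩, h4, h5⟩ := hg
    · simp [Aff.ext_iff] at h1 h2 <;> omega
    · simp [Aff.ext_iff] at h1 h2
      have h := h3 ⟨1,1,0,-1,-(f/2),f⟩ (by rw [hS]; simp [C7, Aff.is] <;> omega) (by simp [Aff.ext_iff] <;> omega)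
      simp [Aff.ext_iff] at h <;> omega
    · simp [Aff.ext_iff] at h1 h2
      have h := h3 ⟨1,0,0,1,4,0⟩ (by rw [hS]; simp [C7, Aff.is] <;> omega) (by simp [Aff.ext_iff] <;> omega)
      simp [Aff.ext_iff] at h <;> omega
    · simp [Aff.ext_iff] at h1 h2
      have h := h3 ⟨1,0,0,1,-1,2⟩ (by rw [hS]; simp [C7, Aff.is] <;> omega) (by simp [Aff.ext_iff] <;> omega)
      simp [Aff.ext_iff] at h <;> omega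
  simp [typ, tf, hA, hB, hK, hL]

theorem typ8 {S : Submonoid Aff} (hS : ∀ w, w ∈ S ↔ C8 w) : typ S = 8 := by
  have hA : pA S := by
    rw [pA_sub]; exact ⟨⟨-1,0,0,-1,0,0⟩, by rw [hS]; simp [C8, Aff.is], by simp [Aff.ext_iff], by simp [Aff.ext_iff]⟩
  have hB : ¬ pB S := by
    rw [pB_sub]; rintro ⟨⟨a,b,c,d,e,f⟩, hg, h1, h2⟩
    rw [hS] at hg; simp only [C8, Aff.is] at hg
    obtain ⟨rfl, rfl, rfl, rfl⟩ | ⟨rfl, rfl, rfl, rfl⟩ | ⟨rfl, rfl, rfl, rfl⟩ | ⟨rfl, rfl, rfl, rfl⟩ := hg <;>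
    simp [Aff.ext_iff] at h1 h2 <;>
    omega
  have hK : pK S := by
    rw [pK_sub]; exact ⟨⟨0,1,1,0,0,0⟩, by rw [hS]; simp [C8, Aff.is], ⟨0,-1,-1,0,0,0⟩, by rw [hS]; simp [C8, Aff.is], by simp [Aff.ext_iff], by simp [Aff.ext_iff], by simp [Aff.ext_iff], by simp [Aff.ext_iff], by simp [Aff.ext_iff], by simp [Aff.ext_iff]⟩
  have hL : pL S := by
    rw [pL_sub]; refine ⟨⟨-1,0,0,-1,1,0⟩, by rw [hS]; simp [C8, Aff.is], by simp [Aff.ext_iff], by simp [Aff.ext_iff], ?_⟩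
    rintro ⟨a,b,c,d,e,f⟩ hg h1
    rw [hS] at hg; simp only [C8, Aff.is] at hg
    obtain ⟨rfl, rfl, rfl, rfl⟩ | ⟨rfl, rfl, rfl, rfl⟩ | ⟨rfl, rfl, rfl, rfl⟩ | ⟨rfl, rfl, rfl, rfl⟩ := hg <;>
    simp [Aff.ext_iff] at h1 ⊢ <;> omega
  simp [typ, tf, hA, hB, hK, hL]

theorem typ9 {S : Submonoid Aff} (hS : ∀ w, w ∈ S ↔ C9 w) : typ S = 9 := by
  have hA : pA S := by
    rw [pA_sub]; exact ⟨⟨-1,0,0,-1,0,0⟩, by rw [hS]; simp [C9, Aff.is], by simp [Aff.ext_iff], by simp [Aff.ext_iff]⟩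
  have hB : ¬ pB S := by
    rw [pB_sub]; rintro ⟨⟨a,b,c,d,e,f⟩, hg, h1, h2⟩
    rw [hS] at hg; simp only [C9, Aff.is] at hg
    obtain ⟨⟨rfl, rfl, rfl, rfl⟩ | ⟨rfl, rfl, rfl, rfl⟩, h3⟩ := hg <;>
    simp [Aff.ext_iff] at h1 h2 <;>
    omega
  have hK : ¬ pK S := by
    rw [pK_sub]; rintro ⟨⟨a,b,c,d,e,f⟩, hg, ⟨a',b',c',d',e',f'⟩, hg', h1, h2, h3, h4, h5, h6⟩
    rw [hS] at hg hg'; simp only [C9, Aff.is] at hg hg'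
    obtain ⟨⟨rfl, rfl, rfl, rfl⟩ | ⟨rfl, rfl, rfl, rfl⟩, h7⟩ := hg <;> obtain ⟨⟨rfl, rfl, rfl, rfl⟩ | ⟨rfl, rfl, rfl, rfl⟩, h7'⟩ := hg' <;>
    simp [Aff.ext_iff] at h1 h2 h3 h4 h5 h6 <;>
    omega
  have hL : pL S := by
    rw [pL_sub]; refine ⟨⟨-1,0,0,-1,0,0⟩, by rw [hS]; simp [C9, Aff.is], by simp [Aff.ext_iff], by simp [Aff.ext_iff], ?_⟩
    rintro ⟨a,b,c,d,e,f⟩ hg h1
    rw [hS] at hg; simp only [C9, Aff.is] at hg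
    obtain ⟨⟨rfl, rfl, rfl, rfl⟩ | ⟨rfl, rfl, rfl, rfl⟩, h2⟩ := hg <;>
    simp [Aff.ext_iff] at h1 ⊢ <;> omega
  have hN : pN S := by
    rw [pN_sub]; rintro ⟨a,b,c,d,e,f⟩ hg h1 h2 ⟨a',b',c',d',e',f'⟩ hg' h3
    rw [hS] at hg hg'; simp only [C9, Aff.is] at hg hg'
    obtain ⟨⟨rfl, rfl, rfl, rfl⟩ | ⟨rfl, rfl, rfl, rfl⟩, h4⟩ := hg <;> obtain ⟨⟨rfl, rfl, rfl, rfl⟩ | ⟨rfl, rfl, rfl, rfl⟩, h4'⟩ := hg' <;>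
    simp [Aff.ext_iff] at h1 h2 h3 ⊢ <;> omega
  have hO : pO S := by
    rw [pO_sub]; rintro ⟨a,b,c,d,e,f⟩ hg ⟨a',b',c',d',e',f'⟩ hg' h1 h2
    rw [hS] at hg hg'; simp only [C9, Aff.is] at hg hg'
    obtain ⟨⟨rfl, rfl, rfl, rfl⟩ | ⟨rfl, rfl, rfl, rfl⟩, h4⟩ := hg <;> obtain ⟨⟨rfl, rfl, rfl, rfl⟩ | ⟨rfl, rfl, rfl, rfl⟩, h4'⟩ := hg' <;>
    simp [Aff.ext_iff] at h1 h2 ⊢ <;> omega
  simp [typ, tf, hA, hB, hK, hL, hN, hO]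

theorem typ10 {S : Submonoid Aff} (hS : ∀ w, w ∈ S ↔ C10 w) : typ S = 10 := by
  have hA : pA S := by
    rw [pA_sub]; exact ⟨⟨-1,0,0,-1,0,0⟩, by rw [hS]; simp [C10, Aff.is], by simp [Aff.ext_iff], by simp [Aff.ext_iff]⟩
  have hB : ¬ pB S := by
    rw [pB_sub]; rintro ⟨⟨a,b,c,d,e,f⟩, hg, h1, h2⟩
    rw [hS] at hg; simp only [C10, Aff.is] at hg
    obtain ⟨h7, ⟨⟨rfl, rfl, rfl, rfl⟩ | ⟨rfl, rfl, rfl, rfl⟩, h8⟩ | ⟨⟨rfl, rfl, rfl, rfl⟩ | ⟨rfl, rfl, rfl, rfl⟩, h8⟩⟩ := hg <;>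
    simp [Aff.ext_iff] at h1 h2 <;>
    omega
  have hK : ¬ pK S := by
    rw [pK_sub]; rintro ⟨⟨a,b,c,d,e,f⟩, hg, ⟨a',b',c',d',e',f'⟩, hg', h1, h2, h3, h4, h5, h6⟩
    rw [hS] at hg hg'; simp only [C10, Aff.is] at hg hg'
    obtain ⟨h7, ⟨⟨rfl, rfl, rfl, rfl⟩ | ⟨rfl, rfl, rfl, rfl⟩, h8⟩ | ⟨⟨rfl, rfl, rfl, rfl⟩ | ⟨rfl, rfl, rfl, rfl⟩, h8⟩⟩ := hg <;> obtain ⟨h7', ⟨⟨rfl, rfl, rfl, rfl⟩ | ⟨rfl, rfl, rfl, rfl⟩, h8'⟩ | ⟨⟨rfl, rfl, rfl, rfl⟩ | ⟨rfl, rfl, rfl, rfl⟩, h8'⟩⟩ := hg' <;>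
    simp [Aff.ext_iff] at h1 h2 h3 h4 h5 h6 <;>
    omega
  have hL : pL S := by
    rw [pL_sub]; refine ⟨⟨-1,0,0,-1,0,0⟩, by rw [hS]; simp [C10, Aff.is], by simp [Aff.ext_iff], by simp [Aff.ext_iff], ?_⟩
    rintro ⟨a,b,c,d,e,f⟩ hg h1
    rw [hS] at hg; simp only [C10, Aff.is] at hg
    obtain ⟨h7, ⟨⟨rfl, rfl, rfl, rfl⟩ | ⟨rfl, rfl, rfl, rfl⟩, h8⟩ | ⟨⟨rfl, rfl, rfl, rfl⟩ | ⟨rfl, rfl, rfl, rfl⟩, h8⟩⟩ := hg <;>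
    simp [Aff.ext_iff] at h1 ⊢ <;> omega
  have hN : pN S := by
    rw [pN_sub]; rintro ⟨a,b,c,d,e,f⟩ hg h1 h2 ⟨a',b',c',d',e',f'⟩ hg' h3
    rw [hS] at hg hg'; simp only [C10, Aff.is] at hg hg'
    obtain ⟨h7, ⟨⟨rfl, rfl, rfl, rfl⟩ | ⟨rfl, rfl, rfl, rfl⟩, h8⟩ | ⟨⟨rfl, rfl, rfl, rfl⟩ | ⟨rfl, rfl, rfl, rfl⟩, h8⟩⟩ := hg <;> obtain ⟨h7', ⟨⟨rfl, rfl, rfl, rfl⟩ | ⟨rfl, rfl, rfl, rfl⟩, h8'⟩ | ⟨⟨rfl, rfl, rfl, rfl⟩ | ⟨rfl, rfl, rfl, rfl⟩, h8'⟩⟩ := hg' <;>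
    simp [Aff.ext_iff] at h1 h2 h3 ⊢ <;> omega
  have hO : ¬ pO S := by
    rw [pO_sub]; intro h
    have := h ⟨1,1,0,-1,0,3⟩ (by rw [hS]; simp [C10, Aff.is]) ⟨1,0,0,1,0,6⟩ (by rw [hS]; simp [C10, Aff.is]) (by simp [Aff.ext_iff]) (by simp [Aff.ext_iff])
    simp [Aff.ext_iff] at this
  simp [typ, tf, hA, hB, hK, hL, hN, hO]

theorem typ11 {S : Submonoid Aff} (hS : ∀ w, w ∈ S ↔ C11 w) : typ S = 11 := by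
  have hA : pA S := by
    rw [pA_sub]; exact ⟨⟨-1,0,0,-1,0,1⟩, by rw [hS]; simp [C11, Aff.is], by simp [Aff.ext_iff], by simp [Aff.ext_iff]⟩
  have hB : ¬ pB S := by
    rw [pB_sub]; rintro ⟨⟨a,b,c,d,e,f⟩, hg, h1, h2⟩
    rw [hS] at hg; simp only [C11, Aff.is] at hg
    obtain ⟨⟨rfl, rfl, rfl, rfl⟩ | ⟨rfl, rfl, rfl, rfl⟩, h8⟩ | ⟨⟨rfl, rfl, rfl, rfl⟩ | ⟨rfl, rfl, rfl, rfl⟩, h8⟩ := hg <;>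
    simp [Aff.ext_iff] at h1 h2 <;>
    omega
  have hK : ¬ pK S := by
    rw [pK_sub]; rintro ⟨⟨a,b,c,d,e,f⟩, hg, ⟨a',b',c',d',e',f'⟩, hg', h1, h2, h3, h4, h5, h6⟩
    rw [hS] at hg hg'; simp only [C11, Aff.is] at hg hg'
    obtain ⟨⟨rfl, rfl, rfl, rfl⟩ | ⟨rfl, rfl, rfl, rfl⟩, h8⟩ | ⟨⟨rfl, rfl, rfl, rfl⟩ | ⟨rfl, rfl, rfl, rfl⟩, h8⟩ := hg <;> obtain ⟨⟨rfl, rfl, rfl, rfl⟩ | ⟨rfl, rfl, rfl, rfl⟩, h8'⟩ | ⟨⟨rfl, rfl, rfl, rfl⟩ | ⟨rfl, rfl, rfl, rfl⟩, h8'⟩ := hg' <;>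
    simp [Aff.ext_iff] at h1 h2 h3 h4 h5 h6 <;>
    omega
  have hL : pL S := by
    rw [pL_sub]; refine ⟨⟨-1,0,0,-1,0,1⟩, by rw [hS]; simp [C11, Aff.is], by simp [Aff.ext_iff], by simp [Aff.ext_iff], ?_⟩
    rintro ⟨a,b,c,d,e,f⟩ hg h1
    rw [hS] at hg; simp only [C11, Aff.is] at hg
    obtain ⟨⟨rfl, rfl, rfl, rfl⟩ | ⟨rfl, rfl, rfl, rfl⟩, h8⟩ | ⟨⟨rfl, rfl, rfl, rfl⟩ | ⟨rfl, rfl, rfl, rfl⟩, h8⟩ := hg <;>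
    simp [Aff.ext_iff] at h1 ⊢ <;> omega
  have hN : ¬ pN S := by
    rw [pN_sub]; intro h
    have := h ⟨1,1,0,-1,0,0⟩ (by rw [hS]; simp [C11, Aff.is]) (by simp [Aff.ext_iff]) (by simp [Aff.ext_iff]) ⟨1,0,0,1,1,0⟩ (by rw [hS]; simp [C11, Aff.is]) (by simp [Aff.ext_iff])
    simp [Aff.ext_iff] at this
  simp [typ, tf, hA, hB, hK, hL, hN]

theorem typ12 {S : Submonoid Aff} (hS : ∀ w, w ∈ S ↔ C12 w) : typ S = 12 := by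
  have hA : pA S := by
    rw [pA_sub]; exact ⟨⟨1,1,0,-1,0,0⟩, by rw [hS]; simp [C12, Aff.is], by simp [Aff.ext_iff], by simp [Aff.ext_iff]⟩
  have hB : ¬ pB S := by
    rw [pB_sub]; rintro ⟨⟨a,b,c,d,e,f⟩, hg, h1, h2⟩
    rw [hS] at hg; simp only [C12, Aff.is] at hg
    obtain ⟨⟨rfl, rfl, rfl, rfl⟩ | ⟨rfl, rfl, rfl, rfl⟩, h3⟩ := hg <;>
    simp [Aff.ext_iff] at h1 h2 <;>
    omega
  have hK : ¬ pK S := by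
    rw [pK_sub]; rintro ⟨⟨a,b,c,d,e,f⟩, hg, ⟨a',b',c',d',e',f'⟩, hg', h1, h2, h3, h4, h5, h6⟩
    rw [hS] at hg hg'; simp only [C12, Aff.is] at hg hg'
    obtain ⟨⟨rfl, rfl, rfl, rfl⟩ | ⟨rfl, rfl, rfl, rfl⟩, h7⟩ := hg <;> obtain ⟨⟨rfl, rfl, rfl, rfl⟩ | ⟨rfl, rfl, rfl, rfl⟩, h7'⟩ := hg' <;>
    simp [Aff.ext_iff] at h1 h2 h3 h4 h5 h6 <;>
    omega
  have hL : ¬ pL S := by
    rw [pL_sub]; rintro ⟨⟨a,b,c,d,e,f⟩, hg, h1, h2, h3⟩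
    rw [hS] at hg; simp only [C12, Aff.is] at hg
    obtain ⟨⟨rfl, rfl, rfl, rfl⟩ | ⟨rfl, rfl, rfl, rfl⟩, h4⟩ := hg
    · simp [Aff.ext_iff] at h1 h2 <;> omega
    · simp [Aff.ext_iff] at h1 h2
      have h := h3 ⟨1,0,0,1,1,0⟩ (by rw [hS]; simp [C12, Aff.is] <;> omega) (by simp [Aff.ext_iff] <;> omega)
      simp [Aff.ext_iff] at h <;> omega
  have hQ : ¬ pQ S := by
    rw [pQ_sub]; intro h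
    obtain ⟨⟨a,b,c,d,e,f⟩, hg, h1⟩ := h ⟨1,1,0,-1,0,0⟩ (by rw [hS]; simp [C12, Aff.is]) (by simp [Aff.ext_iff]) (by simp [Aff.ext_iff]) ⟨1,0,0,1,1,0⟩ (by rw [hS]; simp [C12, Aff.is]) (by simp [Aff.ext_iff])
    rw [hS] at hg; simp only [C12, Aff.is] at hg
    obtain ⟨⟨rfl, rfl, rfl, rfl⟩ | ⟨rfl, rfl, rfl, rfl⟩, h4⟩ := hg <;>
    simp [Aff.ext_iff] at h1 <;> omega
  simp [typ, tf, hA, hB, hK, hL, hQ]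

theorem typ13 {S : Submonoid Aff} (hS : ∀ w, w ∈ S ↔ C13 w) : typ S = 13 := by
  have hA : pA S := by
    rw [pA_sub]; exact ⟨⟨1,1,0,-1,0,0⟩, by rw [hS]; simp [C13, Aff.is], by simp [Aff.ext_iff], by simp [Aff.ext_iff]⟩
  have hB : ¬ pB S := by
    rw [pB_sub]; rintro ⟨⟨a,b,c,d,e,f⟩, hg, h1, h2⟩
    rw [hS] at hg; simp only [C13, Aff.is] at hg
    obtain ⟨⟨rfl, rfl, rfl, rfl⟩ | ⟨rfl, rfl, rfl, rfl⟩, h3, h4⟩ := hg <;>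
    simp [Aff.ext_iff] at h1 h2 <;>
    omega
  have hK : ¬ pK S := by
    rw [pK_sub]; rintro ⟨⟨a,b,c,d,e,f⟩, hg, ⟨a',b',c',d',e',f'⟩, hg', h1, h2, h3, h4, h5, h6⟩
    rw [hS] at hg hg'; simp only [C13, Aff.is] at hg hg'
    obtain ⟨⟨rfl, rfl, rfl, rfl⟩ | ⟨rfl, rfl, rfl, rfl⟩, h7, h8⟩ := hg <;> obtain ⟨⟨rfl, rfl, rfl, rfl⟩ | ⟨rfl, rfl, rfl, rfl⟩, h7', h8'⟩ := hg' <;>
    simp [Aff.ext_iff] at h1 h2 h3 h4 h5 h6 <;>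
    omega
  have hL : ¬ pL S := by
    rw [pL_sub]; rintro ⟨⟨a,b,c,d,e,f⟩, hg, h1, h2, h3⟩
    rw [hS] at hg; simp only [C13, Aff.is] at hg
    obtain ⟨⟨rfl, rfl, rfl, rfl⟩ | ⟨rfl, rfl, rfl, rfl⟩, h4, h5⟩ := hg
    · simp [Aff.ext_iff] at h1 h2 <;> omega
    · simp [Aff.ext_iff] at h1 h2
      have h := h3 ⟨1,0,0,1,4,0⟩ (by rw [hS]; simp [C13, Aff.is] <;> omega) (by simp [Aff.ext_iff] <;> omega)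
      simp [Aff.ext_iff] at h <;> omega
  have hQ : pQ S := by
    rw [pQ_sub]; rintro ⟨a,b,c,d,e,f⟩ hg h1 h2 ⟨a',b',c',d',e',f'⟩ hg' h3
    rw [hS] at hg hg'; simp only [C13, Aff.is] at hg hg'
    obtain ⟨⟨rfl, rfl, rfl, rfl⟩ | ⟨rfl, rfl, rfl, rfl⟩, h4, h5⟩ := hg <;> obtain ⟨⟨rfl, rfl, rfl, rfl⟩ | ⟨rfl, rfl, rfl, rfl⟩, h4', h5'⟩ := hg' <;>
    simp [Aff.ext_iff] at h1 h2 h3
    · exfalso; omega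
    · exfalso; omega
    · refine ⟨⟨1,1,0,-1,0,e'⟩, by rw [hS]; simp [C13, Aff.is] <;> omega, Or.inl ?_⟩
      simp [Aff.ext_iff] <;> omega
    · refine ⟨⟨1,1,0,-1,0,e'+e+f⟩, by rw [hS]; simp [C13, Aff.is] <;> omega, Or.inr ?_⟩
      simp [Aff.ext_iff] <;> omega
  simp [typ, tf, hA, hB, hK, hL, hQ]

end Pool.Agent.Helper989.Tile
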