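import Mathlib
import Pool.Agent.Helper989.TileTyp
import Pool.Agent.Helper989.TileSym

set_option autoImplicit false

namespace Pool.Agent.Helper989.Tile

/-- a doubly periodic pattern given by a bit mask -/
def tb (N mask : ℕ) (x y : ℤ) : Bool :=
  mask.testBit ((x % (2*N : ℕ)).toNat * (2*N) + (y % (2*N : ℕ)).toNat)

def WW (N mask : ℕ) (x y : ℤ) : Prop := tb N mask x y = true

theorem tb_congr {N mask : ℕ} {x y x' y' : ℤ} (hx : x % (2*N : ℕ) = x' % (2*N : ℕ))
    (hy : y % (2*N : ℕ) = y' % (2*N : ℕ)) : tb N mask x y = tb N mask x' y' := by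
  unfold tb; rw [hx, hy]

def o3 (a b c : Bool) : Bool := (a && !b && !c) || (!a && b && !c) || (!a && !b && c)

def chkT (N mask : ℕ) : Bool :=
  (List.range N).all fun i => (List.range N).all fun j =>
    (!(tb N mask (2*(i:ℤ)) (2*(j:ℤ)))) &&
    o3 (tb N mask (2*(i:ℤ)+1) (2*(j:ℤ)+1)) (tb N mask (2*(i:ℤ)+1) (2*(j:ℤ))) (tb N mask (2*(i:ℤ)) (2*(j:ℤ)+1)) &&
    o3 (tb N mask (2*(i:ℤ)+1) (2*(j:ℤ)+1)) (tb N mask (2*(i:ℤ)+1) (2*(j:ℤ)+2)) (tb N mask (2*(i:ℤ)+2) (2*(j:ℤ)+1))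

theorem two_emod (N : ℕ) (i r : ℤ) : (2 * i + r) % (2*N : ℕ) = (2 * (i % N) + r) % (2*N : ℕ) := by
  have h : i = i % N + N * (i / N) := (Int.emod_add_mul_ediv i N).symm
  have h2 : 2 * i + r = (2 * (i % N) + r) + (2 * N : ℕ) * (i / N) := by
    push_cast
    linear_combination 2 * h
  rw [h2, Int.add_mul_emod_self_left]

theorem two_emod' (N : ℕ) (i : ℤ) : (2 * i) % (2*N : ℕ) = (2 * (i % N)) % (2*N : ℕ) := by
  have := two_emod N i 0
  simpa using this

theorem o3_iff (a b c : Bool) : o3 a b c = true ↔ One3 (a = true) (b = true) (c = true) := by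
  cases a <;> cases b <;> cases c <;> simp [o3, One3]

theorem tiling_of_chk {N mask : ℕ} (hN : 0 < N) (h : chkT N mask = true) : Tiling (WW N mask) := by
  have hN' : (0:ℤ) < N := by exact_mod_cast hN
  simp only [chkT, List.all_eq_true, List.mem_range, Bool.and_eq_true, Bool.not_eq_true'] at h
  have red : ∀ i : ℤ, ∃ k : ℕ, k < N ∧ i % N = k := by
    intro i
    refine ⟨(i % N).toNat, ?_, ?_⟩
    · have := Int.emod_lt_of_pos i hN'
      have := Int.emod_nonneg i hN'.ne'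
      omega
    · have := Int.emod_nonneg i hN'.ne'
      omega
  refine ⟨fun i j => ?_, fun i j => ?_, fun i j => ?_⟩
  · obtain ⟨k, hk, ek⟩ := red i
    obtain ⟨l, hl, el⟩ := red j
    unfold WW
    rw [tb_congr (two_emod' N i) (two_emod' N j), ek, el, (h k hk l hl).1.1]
    simp
  · obtain ⟨k, hk, ek⟩ := red i
    obtain ⟨l, hl, el⟩ := red j
    unfold WW
    rw [tb_congr (two_emod N i 1) (two_emod N j 1), tb_congr (two_emod N i 1) (two_emod' N j),
      tb_congr (two_emod' N i) (two_emod N j 1), ek, el, ← o3_iff]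
    exact (h k hk l hl).1.2
  · obtain ⟨k, hk, ek⟩ := red i
    obtain ⟨l, hl, el⟩ := red j
    unfold WW
    rw [tb_congr (two_emod N i 1) (two_emod N j 1), tb_congr (two_emod N i 1) (two_emod N j 2),
      tb_congr (two_emod N i 2) (two_emod N j 1), ek, el, ← o3_iff]
    exact (h k hk l hl).2

def chkS (N mask : ℕ) (a b c d e f : ℤ) : Bool :=
  (List.range (2*N)).all fun x => (List.range (2*N)).all fun y =>
    tb N mask (x:ℤ) (y:ℤ) == tb N mask (a*x+b*y+2*e) (c*x+d*y+2*f)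

theorem inv_iff_chkS {N mask : ℕ} (hN : 0 < N) (w : Aff) :
    Inv (WW N mask) w ↔ chkS N mask w.a w.b w.c w.d w.e w.f = true := by
  have hN' : (0:ℤ) < (2*N : ℕ) := by exact_mod_cast (by omega)
  simp only [chkS, List.all_eq_true, List.mem_range, beq_iff_eq]
  constructor
  · intro h x hx y hy
    have := h x y
    unfold WW ax ay at this
    rw [Bool.eq_iff_iff]
    exact this
  · intro h u v
    unfold WW ax ay
    have red : ∀ i : ℤ, ∃ k : ℕ, k < 2 * N ∧ i % (2*N : ℕ) = k := by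
      intro i
      refine ⟨(i % (2*N : ℕ)).toNat, ?_, ?_⟩
      · have := Int.emod_lt_of_pos i hN'
        have := Int.emod_nonneg i hN'.ne'
        omega
      · have := Int.emod_nonneg i hN'.ne'
        omega
    obtain ⟨k, hk, ek⟩ := red u
    obtain ⟨l, hl, el⟩ := red v
    have e1 : tb N mask u v = tb N mask k l := by
      apply tb_congr
      · rw [← ek, Int.emod_emod]
      · rw [← el, Int.emod_emod]
    have e2 : tb N mask (w.a * u + w.b * v + 2 * w.e) (w.c * u + w.d * v + 2 * w.f) =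
        tb N mask (w.a * k + w.b * l + 2 * w.e) (w.c * k + w.d * l + 2 * w.f) := by
      have hu : u = k + (2*N : ℕ) * (u / (2*N : ℕ)) := by rw [← ek]; exact (Int.emod_add_mul_ediv u _).symm
      have hv : v = l + (2*N : ℕ) * (v / (2*N : ℕ)) := by rw [← el]; exact (Int.emod_add_mul_ediv v _).symm
      apply tb_congr
      · have : w.a * u + w.b * v + 2 * w.e = (w.a * k + w.b * l + 2 * w.e) +
          (2*N : ℕ) * (w.a * (u / (2*N : ℕ)) + w.b * (v / (2*N : ℕ))) := by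
          linear_combination w.a * hu + w.b * hv
        rw [this, Int.add_mul_emod_self_left]
      · have : w.c * u + w.d * v + 2 * w.f = (w.c * k + w.d * l + 2 * w.f) +
          (2*N : ℕ) * (w.c * (u / (2*N : ℕ)) + w.d * (v / (2*N : ℕ))) := by
          linear_combination w.c * hu + w.d * hv
        rw [this, Int.add_mul_emod_self_left]
    rw [e1, e2, h k hk l hl]

def L12 : List (ℤ × ℤ × ℤ × ℤ) := [(1,0,0,1), (-1,0,0,-1), (0,-1,1,1), (-1,-1,1,0), (0,1,-1,-1), (1,1,-1,0),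
  (0,1,1,0), (0,-1,-1,0), (1,1,0,-1), (-1,-1,0,1), (1,0,-1,-1), (-1,0,1,1)]

def chkA (N mask : ℕ) (C : Aff → Bool) : Bool :=
  L12.all fun m => (List.range N).all fun e => (List.range N).all fun f =>
    chkS N mask m.1 m.2.1 m.2.2.1 m.2.2.2 e f == C ⟨m.1, m.2.1, m.2.2.1, m.2.2.2, e, f⟩

theorem good_mem {w : Aff} (h : Good w) : (w.a, w.b, w.c, w.d) ∈ L12 := by
  unfold Good Aff.is at h
  rcases h with ⟨h1,h2,h3,h4⟩|⟨h1,h2,h3,h4⟩|⟨h1,h2,h3,h4⟩|⟨h1,h2,h3,h4⟩|⟨h1,h2,h3,h4⟩|⟨h1,h2,h3,h4⟩|⟨h1,h2,h3,h4⟩|⟨h1,h2,h3,h4⟩|⟨h1,h2,h3,h4⟩|⟨h1,h2,h3,h4⟩|⟨h1,h2,h3,h4⟩|⟨h1,h2,h3,h4⟩ <;>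
  rw [h1,h2,h3,h4] <;> simp [L12]

theorem mem_iff {N mask : ℕ} (hN : 0 < N) (C : Aff → Prop) [DecidablePred C]
    (h : chkA N mask (fun w => decide (C w)) = true) (hC1 : ∀ w, C w → Good w)
    (hper : ∀ w : Aff, C w ↔ C ⟨w.a, w.b, w.c, w.d, w.e % N, w.f % N⟩) (w : Aff) :
    (Good w ∧ Inv (WW N mask) w) ↔ C w := by
  have hN' : (0:ℤ) < N := by exact_mod_cast hN
  have key : ∀ w : Aff, Good w → (Inv (WW N mask) w ↔ C w) := by
    intro w hw
    have red : ∀ i : ℤ, ∃ k : ℕ, k < N ∧ i % N = k := by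
      intro i
      refine ⟨(i % N).toNat, ?_, ?_⟩
      · have := Int.emod_lt_of_pos i hN'
        have := Int.emod_nonneg i hN'.ne'
        omega
      · have := Int.emod_nonneg i hN'.ne'
        omega
    obtain ⟨k, hk, ek⟩ := red w.e
    obtain ⟨l, hl, el⟩ := red w.f
    simp only [chkA, List.all_eq_true, List.mem_range, beq_iff_eq] at h
    have h1 := h _ (good_mem hw) k hk l hl
    rw [hper w, ek, el, ← decide_eq_true_iff (p := C _), ← h1]
    have e3 : Inv (WW N mask) w ↔ Inv (WW N mask) ⟨w.a, w.b, w.c, w.d, k, l⟩ := by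
      refine forall_congr' fun u => forall_congr' fun v => ?_
      refine iff_congr Iff.rfl ?_
      unfold WW ax ay
      rw [tb_congr (x := w.a * u + w.b * v + 2 * w.e) (x' := w.a * u + w.b * v + 2 * (k:ℤ))
        (y := w.c * u + w.d * v + 2 * w.f) (y' := w.c * u + w.d * v + 2 * (l:ℤ))]
      · have := two_emod N w.e (w.a * u + w.b * v)
        rw [ek] at this
        rw [add_comm, this, add_comm]
      · have := two_emod N w.f (w.c * u + w.d * v)
        rw [el] at this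
        rw [add_comm, this, add_comm]
    rw [e3, inv_iff_chkS hN]
  constructor
  · rintro ⟨h1, h2⟩; exact (key w h1).mp h2
  · intro h1; exact ⟨hC1 w h1, (key w (hC1 w h1)).mpr h1⟩

end Pool.Agent.Helper989.Tile
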