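import Mathlib
import Pool.Agent.Helper989.TileDat

set_option autoImplicit false
set_option linter.unusedVariables false
set_option linter.unusedSimpArgs false

namespace Pool.Agent.Helper989.Tile

open Metric

theorem Inv.one (W : ℤ → ℤ → Prop) : Inv W 1 := by
  intro u v; rw [ax_one, ay_one]

theorem Inv.mul {W : ℤ → ℤ → Prop} {g h : Aff} (hg : Inv W g) (hh : Inv W h) : Inv W (g * h) := by
  intro u v; rw [ax_mul, ay_mul, ← hg, ← hh]

/-- the group of integral symmetries -/
def GW (W : ℤ → ℤ → Prop) : Submonoid Aff where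
  carrier := {w | Good w ∧ Inv W w}
  mul_mem' := fun ha hb => ⟨ha.1.mul hb.1, ha.2.mul hb.2⟩
  one_mem' := ⟨Good.one, Inv.one W⟩

theorem mem_GW {W : ℤ → ℤ → Prop} {w : Aff} : w ∈ GW W ↔ Good w ∧ Inv W w := Iff.rfl

/-- the symmetry group of a family of sets -/
def SyS (T : Set (Set E)) : Submonoid (E ≃ᵢ E) where
  carrier := Sy T
  mul_mem' := by
    intro a b ha hb
    change _ '' _ = _
    have ha : (fun A : Set E => (⇑a) '' A) '' T = T := ha
    have hb : (fun A : Set E => (⇑b) '' A) '' T = T := hb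
    conv_rhs => rw [← ha, ← hb]
    rw [Set.image_image]
    congr 1
    funext A
    rw [Set.image_image]; rfl
  one_mem' := by
    change _ '' _ = _
    have : (fun A : Set E => (⇑(1 : E ≃ᵢ E)) '' A) = id := by
      funext A
      change (fun x => x) '' A = A
      simp
    rw [this, Set.image_id]

noncomputable def toSy {W : ℤ → ℤ → Prop} (w : GW W) : SyS (TT W) :=
  ⟨gam w.1 w.2.1, mem_Sy_of_inv w.2.1 w.2.2⟩

noncomputable def eqv {W : ℤ → ℤ → Prop} (hW : Tiling W) : GW W ≃* SyS (TT W) :=
  MulEquiv.mk' (Equiv.ofBijective toSy ⟨by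
    rintro ⟨w, hw⟩ ⟨w', hw'⟩ h
    have h := congrArg Subtype.val h
    exact Subtype.ext (gam_inj (hg := hw.1) (hh := hw'.1) h), by
    rintro ⟨g, hg⟩
    obtain ⟨w, hw, rfl, hi⟩ := sym_form hW hg
    exact ⟨⟨w, hw, hi⟩, rfl⟩⟩) (by
    rintro ⟨w, hw⟩ ⟨w', hw'⟩
    exact Subtype.ext (gam_mul hw.1 hw'.1))

theorem typ_SyS {W : ℤ → ℤ → Prop} (hW : Tiling W) : typ (SyS (TT W)) = typ (GW W) :=
  (typ_congr (eqv hW)).symm

theorem typ_of_iso {T T' : Set (Set E)} {φ : (E ≃ᵢ E) → (E ≃ᵢ E)} (h : Set.BijOn φ (Sy T) (Sy T'))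
    (hm : ∀ g ∈ Sy T, ∀ k ∈ Sy T, φ (g * k) = φ g * φ k) : typ (SyS T) = typ (SyS T') := by
  refine typ_congr (MulEquiv.mk' (Set.BijOn.equiv φ h) ?_)
  rintro ⟨g, hg⟩ ⟨k, hk⟩
  exact Subtype.ext (hm g hg k hk)

instance : DecidablePred C0 := fun w => by unfold C0; infer_instance
instance : DecidablePred C1 := fun w => by unfold C1; infer_instance
instance : DecidablePred C2 := fun w => by unfold C2; infer_instance
instance : DecidablePred C3 := fun w => by unfold C3; infer_instance
instance : DecidablePred C4 := fun w => by unfold C4; infer_instance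
instance : DecidablePred C5 := fun w => by unfold C5; infer_instance
instance : DecidablePred C6 := fun w => by unfold C6; infer_instance
instance : DecidablePred C7 := fun w => by unfold C7; infer_instance
instance : DecidablePred C8 := fun w => by unfold C8; infer_instance
instance : DecidablePred C9 := fun w => by unfold C9; infer_instance
instance : DecidablePred C10 := fun w => by unfold C10; infer_instance
instance : DecidablePred C11 := fun w => by unfold C11; infer_instance
instance : DecidablePred C12 := fun w => by unfold C12; infer_instance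
instance : DecidablePred C13 := fun w => by unfold C13; infer_instance

def Ns : Fin 14 → ℕ := ![5, 6, 6, 6, 3, 6, 3, 8, 1, 3, 6, 2, 6, 4]
def ms : Fin 14 → ℕ := ![408559075089042422220481276416,
  12642351459564229275646089180194428072534560,
  11608396084278726040829677628525068773663360,
  12914442001452455136004249192343901263176200,
  38690751624,
  12653233185363177465196939828590803470033440,
  11279040864,
  67458224446697431865334920244327329205677028389757545876708344057213687570440,
  8,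
  45102664320,
  14036148200504220518592259218030492075991200,
  10280,
  754788870115429112918302725687227921771040,
  5911050515025767040]

theorem dat0 : Tiling (WW 5 408559075089042422220481276416) ∧ typ (GW (WW 5 408559075089042422220481276416)) = 0 := by
  refine ⟨tiling_of_chk (by norm_num) (by decide +kernel), typ0 fun w => ?_⟩
  rw [mem_GW]
  refine mem_iff (by norm_num) C0 (by decide +kernel) ?_ ?_ w
  · intro w hw
    unfold C0 at hw
    rcases hw with ⟨h, -⟩ <;> simp only [Good, h, true_or, or_true]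
  · intro w
    have a0 : (5 ∣ w.e % 5 ↔ 5 ∣ w.e) := by omega
    have a1 : (5 ∣ w.f % 5 ↔ 5 ∣ w.f) := by omega
    simp only [C0, Aff.is, Nat.cast_ofNat, Nat.cast_one, a0, a1]

theorem dat1 : Tiling (WW 6 12642351459564229275646089180194428072534560) ∧ typ (GW (WW 6 12642351459564229275646089180194428072534560)) = 1 := by
  refine ⟨tiling_of_chk (by norm_num) (by decide +kernel), typ1 fun w => ?_⟩
  rw [mem_GW]
  refine mem_iff (by norm_num) C1 (by decide +kernel) ?_ ?_ w
  · intro w hw
    unfold C1 at hw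
    rcases hw with ⟨-, ⟨h, -⟩ | ⟨h, -⟩⟩ <;> simp only [Good, h, true_or, or_true]
  · intro w
    have a0 : (3 ∣ w.e % 6 ↔ 3 ∣ w.e) := by omega
    have a1 : (6 ∣ w.f % 6 ↔ 6 ∣ w.f) := by omega
    have a2 : (w.f % 6 % 6 = 3 ↔ w.f % 6 = 3) := by omega
    simp only [C1, Aff.is, Nat.cast_ofNat, Nat.cast_one, a0, a1, a2]

theorem dat2 : Tiling (WW 6 11608396084278726040829677628525068773663360) ∧ typ (GW (WW 6 11608396084278726040829677628525068773663360)) = 2 := by
  refine ⟨tiling_of_chk (by norm_num) (by decide +kernel), typ2 fun w => ?_⟩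
  rw [mem_GW]
  refine mem_iff (by norm_num) C2 (by decide +kernel) ?_ ?_ w
  · intro w hw
    unfold C2 at hw
    rcases hw with ⟨h | h | h, -⟩ <;> simp only [Good, h, true_or, or_true]
  · intro w
    have a0 : (6 ∣ w.e % 6 ↔ 6 ∣ w.e) := by omega
    have a1 : (6 ∣ w.f % 6 ↔ 6 ∣ w.f) := by omega
    simp only [C2, Aff.is, Nat.cast_ofNat, Nat.cast_one, a0, a1]

theorem dat3 : Tiling (WW 6 12914442001452455136004249192343901263176200) ∧ typ (GW (WW 6 12914442001452455136004249192343901263176200)) = 3 := by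
  refine ⟨tiling_of_chk (by norm_num) (by decide +kernel), typ3 fun w => ?_⟩
  rw [mem_GW]
  refine mem_iff (by norm_num) C3 (by decide +kernel) ?_ ?_ w
  · intro w hw
    unfold C3 at hw
    rcases hw with ⟨h | h | h | h | h | h, -⟩ <;> simp only [Good, h, true_or, or_true]
  · intro w
    have a0 : (6 ∣ w.e % 6 ↔ 6 ∣ w.e) := by omega
    have a1 : (6 ∣ w.f % 6 ↔ 6 ∣ w.f) := by omega
    simp only [C3, Aff.is, Nat.cast_ofNat, Nat.cast_one, a0, a1]

theorem dat4 : Tiling (WW 3 38690751624) ∧ typ (GW (WW 3 38690751624)) = 4 := by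
  refine ⟨tiling_of_chk (by norm_num) (by decide +kernel), typ4 fun w => ?_⟩
  rw [mem_GW]
  refine mem_iff (by norm_num) C4 (by decide +kernel) ?_ ?_ w
  · intro w hw
    unfold C4 at hw
    rcases hw with ⟨h | h | h | h | h | h | h | h | h | h | h | h, -⟩ <;> simp only [Good, h, true_or, or_true]
  · intro w
    have a0 : (3 ∣ (w.e % 3 - w.f % 3) ↔ 3 ∣ (w.e - w.f)) := by omega
    simp only [C4, Aff.is, Nat.cast_ofNat, Nat.cast_one, a0]

theorem dat5 : Tiling (WW 6 12653233185363177465196939828590803470033440) ∧ typ (GW (WW 6 12653233185363177465196939828590803470033440)) = 5 := by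
  refine ⟨tiling_of_chk (by norm_num) (by decide +kernel), typ5 fun w => ?_⟩
  rw [mem_GW]
  refine mem_iff (by norm_num) C5 (by decide +kernel) ?_ ?_ w
  · intro w hw
    unfold C5 at hw
    rcases hw with ⟨h | h | h | h | h | h, -⟩ <;> simp only [Good, h, true_or, or_true]
  · intro w
    have a0 : (6 ∣ (w.e % 6 - w.f % 6) ↔ 6 ∣ (w.e - w.f)) := by omega
    have a1 : (2 ∣ w.e % 6 ↔ 2 ∣ w.e) := by omega
    simp only [C5, Aff.is, Nat.cast_ofNat, Nat.cast_one, a0, a1]

theorem dat6 : Tiling (WW 3 11279040864) ∧ typ (GW (WW 3 11279040864)) = 6 := by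
  refine ⟨tiling_of_chk (by norm_num) (by decide +kernel), typ6 fun w => ?_⟩
  rw [mem_GW]
  refine mem_iff (by norm_num) C6 (by decide +kernel) ?_ ?_ w
  · intro w hw
    unfold C6 at hw
    rcases hw with ⟨h | h | h | h | h | h, -⟩ <;> simp only [Good, h, true_or, or_true]
  · intro w
    have a0 : (3 ∣ w.e % 3 ↔ 3 ∣ w.e) := by omega
    have a1 : (3 ∣ w.f % 3 ↔ 3 ∣ w.f) := by omega
    simp only [C6, Aff.is, Nat.cast_ofNat, Nat.cast_one, a0, a1]

theorem dat7 : Tiling (WW 8 67458224446697431865334920244327329205677028389757545876708344057213687570440) ∧ typ (GW (WW 8 67458224446697431865334920244327329205677028389757545876708344057213687570440)) = 7 := by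
  refine ⟨tiling_of_chk (by norm_num) (by decide +kernel), typ7 fun w => ?_⟩
  rw [mem_GW]
  refine mem_iff (by norm_num) C7 (by decide +kernel) ?_ ?_ w
  · intro w hw
    unfold C7 at hw
    rcases hw with ⟨h | h | h | h, -⟩ <;> simp only [Good, h, true_or, or_true]
  · intro w
    have a0 : (8 ∣ (2 * (w.e % 8) + w.f % 8) ↔ 8 ∣ (2 * w.e + w.f)) := by omega
    have a1 : (2 ∣ w.f % 8 ↔ 2 ∣ w.f) := by omega
    simp only [C7, Aff.is, Nat.cast_ofNat, Nat.cast_one, a0, a1]

theorem dat8 : Tiling (WW 1 8) ∧ typ (GW (WW 1 8)) = 8 := by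
  refine ⟨tiling_of_chk (by norm_num) (by decide +kernel), typ8 fun w => ?_⟩
  rw [mem_GW]
  refine mem_iff (by norm_num) C8 (by decide +kernel) ?_ ?_ w
  · intro w hw
    unfold C8 at hw
    rcases hw with h | h | h | h <;> simp only [Good, h, true_or, or_true]
  · intro w
    simp only [C8, Aff.is, Nat.cast_ofNat, Nat.cast_one]

theorem dat9 : Tiling (WW 3 45102664320) ∧ typ (GW (WW 3 45102664320)) = 9 := by
  refine ⟨tiling_of_chk (by norm_num) (by decide +kernel), typ9 fun w => ?_⟩
  rw [mem_GW]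
  refine mem_iff (by norm_num) C9 (by decide +kernel) ?_ ?_ w
  · intro w hw
    unfold C9 at hw
    rcases hw with ⟨h | h, -⟩ <;> simp only [Good, h, true_or, or_true]
  · intro w
    have a0 : (3 ∣ w.e % 3 ↔ 3 ∣ w.e) := by omega
    simp only [C9, Aff.is, Nat.cast_ofNat, Nat.cast_one, a0]

theorem dat10 : Tiling (WW 6 14036148200504220518592259218030492075991200) ∧ typ (GW (WW 6 14036148200504220518592259218030492075991200)) = 10 := by
  refine ⟨tiling_of_chk (by norm_num) (by decide +kernel), typ10 fun w => ?_⟩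
  rw [mem_GW]
  refine mem_iff (by norm_num) C10 (by decide +kernel) ?_ ?_ w
  · intro w hw
    unfold C10 at hw
    rcases hw with ⟨-, ⟨h | h, -⟩ | ⟨h | h, -⟩⟩ <;> simp only [Good, h, true_or, or_true]
  · intro w
    have a0 : (3 ∣ w.e % 6 ↔ 3 ∣ w.e) := by omega
    have a1 : (6 ∣ w.f % 6 ↔ 6 ∣ w.f) := by omega
    have a2 : (w.f % 6 % 6 = 3 ↔ w.f % 6 = 3) := by omega
    simp only [C10, Aff.is, Nat.cast_ofNat, Nat.cast_one, a0, a1, a2]

theorem dat11 : Tiling (WW 2 10280) ∧ typ (GW (WW 2 10280)) = 11 := by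
  refine ⟨tiling_of_chk (by norm_num) (by decide +kernel), typ11 fun w => ?_⟩
  rw [mem_GW]
  refine mem_iff (by norm_num) C11 (by decide +kernel) ?_ ?_ w
  · intro w hw
    unfold C11 at hw
    rcases hw with ⟨h | h, -⟩ | ⟨h | h, -⟩ <;> simp only [Good, h, true_or, or_true]
  · intro w
    have a0 : (2 ∣ w.f % 2 ↔ 2 ∣ w.f) := by omega
    simp only [C11, Aff.is, Nat.cast_ofNat, Nat.cast_one, a0]

theorem dat12 : Tiling (WW 6 754788870115429112918302725687227921771040) ∧ typ (GW (WW 6 754788870115429112918302725687227921771040)) = 12 := by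
  refine ⟨tiling_of_chk (by norm_num) (by decide +kernel), typ12 fun w => ?_⟩
  rw [mem_GW]
  refine mem_iff (by norm_num) C12 (by decide +kernel) ?_ ?_ w
  · intro w hw
    unfold C12 at hw
    rcases hw with ⟨h | h, -⟩ <;> simp only [Good, h, true_or, or_true]
  · intro w
    have a0 : (6 ∣ w.f % 6 ↔ 6 ∣ w.f) := by omega
    simp only [C12, Aff.is, Nat.cast_ofNat, Nat.cast_one, a0]

theorem dat13 : Tiling (WW 4 5911050515025767040) ∧ typ (GW (WW 4 5911050515025767040)) = 13 := by
  refine ⟨tiling_of_chk (by norm_num) (by decide +kernel), typ13 fun w => ?_⟩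
  rw [mem_GW]
  refine mem_iff (by norm_num) C13 (by decide +kernel) ?_ ?_ w
  · intro w hw
    unfold C13 at hw
    rcases hw with ⟨h | h, -⟩ <;> simp only [Good, h, true_or, or_true]
  · intro w
    have a0 : (4 ∣ w.e % 4 ↔ 4 ∣ w.e) := by omega
    have a1 : (4 ∣ w.f % 4 ↔ 4 ∣ w.f) := by omega
    simp only [C13, Aff.is, Nat.cast_ofNat, Nat.cast_one, a0, a1]

end Pool.Agent.Helper989.Tile
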