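import Mathlib
import Pool.Agent.Helper989.TileSym

set_option autoImplicit false

namespace Pool.Agent.Helper989.Tile

open Metric

theorem cs_comb (a b : ℝ) (x y : E) : cs (a • x + b • y) = a * cs x + b * cs y := by
  simp [cs]; ring
theorem ct_comb (a b : ℝ) (x y : E) : ct (a • x + b • y) = a * ct x + b * ct y := by
  simp [ct]; ring

theorem pt_comb (a b s t s' t' : ℝ) : a • pt s t + b • pt s' t' = pt (a * s + b * s') (a * t + b * t') := by
  rw [← pt_cs_ct (a • pt s t + b • pt s' t'), cs_comb, ct_comb]; simp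

theorem convex_P : Convex ℝ (Lz 1 1) := by
  intro x hx y hy a b ha hb hab
  rw [mem_P] at hx hy ⊢
  rw [cs_comb, ct_comb]
  obtain ⟨⟨h1, h2⟩, h3, h4⟩ := hx
  obtain ⟨⟨k1, k2⟩, k3, k4⟩ := hy
  refine ⟨⟨by positivity, ?_⟩, by positivity, ?_⟩
  · nlinarith
  · nlinarith

theorem closed_P : IsClosed (Lz 1 1) := by
  have : Lz 1 1 = ({x | 0 ≤ cs x} ∩ {x | cs x ≤ 1}) ∩ ({x | 0 ≤ ct x} ∩ {x | ct x ≤ 1}) := by
    ext x; rw [mem_P]; rfl
  rw [this]
  exact ((isClosed_le continuous_const continuous_cs).inter (isClosed_le continuous_cs continuous_const)).inter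
    ((isClosed_le continuous_const continuous_ct).inter (isClosed_le continuous_ct continuous_const))

def O : Set E := ({x | 0 < cs x} ∩ {x | cs x < 1}) ∩ ({x | 0 < ct x} ∩ {x | ct x < 1})

theorem open_O : IsOpen O :=
  ((isOpen_lt continuous_const continuous_cs).inter (isOpen_lt continuous_cs continuous_const)).inter
    ((isOpen_lt continuous_const continuous_ct).inter (isOpen_lt continuous_ct continuous_const))

theorem O_sub : O ⊆ interior (Lz 1 1) := by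
  apply interior_maximal _ open_O
  rintro x ⟨⟨h1, h2⟩, h3, h4⟩
  rw [mem_P]
  exact ⟨⟨le_of_lt h1, le_of_lt h2⟩, le_of_lt h3, le_of_lt h4⟩

theorem bounded_P : Bornology.IsBounded (Lz 1 1) := by
  apply (Metric.isBounded_closedBall (x := pt 0 0) (r := 2)).subset
  intro x hx
  rw [mem_P] at hx
  rw [Metric.mem_closedBall]
  have h := dist_sq x (pt 0 0)
  simp only [cs_pt, ct_pt, sub_zero] at h
  obtain ⟨⟨h1, h2⟩, h3, h4⟩ := hx
  have : dist x (pt 0 0) ^ 2 ≤ 2 ^ 2 := by rw [h]; nlinarith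
  exact le_of_sq_le_sq this (by norm_num)

theorem homeo_P : Nonempty (Lz 1 1 ≃ₜ closedBall (0 : E) 1) := by
  have hne : (interior (Lz 1 1)).Nonempty := by
    refine ⟨pt (1/2) (1/2), O_sub ⟨⟨?_, ?_⟩, ?_, ?_⟩⟩ <;> simp <;> norm_num
  obtain ⟨h, -, h2, -⟩ := exists_homeomorph_image_interior_closure_frontier_eq_unitBall convex_P hne bounded_P
  rw [closed_P.closure_eq] at h2
  rw [← h2]
  exact ⟨h.image _⟩

theorem frontier_P : ∃ s : Finset (E × E), frontier (Lz 1 1) ⊆ ⋃ p ∈ s, segment ℝ p.1 p.2 := by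
  classical
  refine ⟨{(pt 0 0, pt 0 1), (pt 1 0, pt 1 1), (pt 0 0, pt 1 0), (pt 0 1, pt 1 1)}, ?_⟩
  intro x hx
  have h1 : x ∈ Lz 1 1 := by
    have := frontier_subset_closure hx
    rwa [closed_P.closure_eq] at this
  have h2 : x ∉ O := fun h => hx.2 (O_sub h)
  have h3 := h1
  rw [mem_P] at h1
  obtain ⟨⟨a1, a2⟩, a3, a4⟩ := h1
  have key : cs x = 0 ∨ cs x = 1 ∨ ct x = 0 ∨ ct x = 1 := by
    by_contra hc
    push Not at hc
    obtain ⟨c1, c2, c3, c4⟩ := hc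
    exact h2 ⟨⟨lt_of_le_of_ne a1 (Ne.symm c1), lt_of_le_of_ne a2 c2⟩, lt_of_le_of_ne a3 (Ne.symm c3), lt_of_le_of_ne a4 c4⟩
  simp only [Set.mem_iUnion]
  rcases key with h | h | h | h
  · refine ⟨(pt 0 0, pt 0 1), by simp, ⟨1 - ct x, ct x, by linarith, a3, by ring, ?_⟩⟩
    rw [pt_comb]; conv_rhs => rw [← pt_cs_ct x]
    rw [h]; congr 1 <;> ring
  · refine ⟨(pt 1 0, pt 1 1), by simp, ⟨1 - ct x, ct x, by linarith, a3, by ring, ?_⟩⟩
    rw [pt_comb]; conv_rhs => rw [← pt_cs_ct x]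
    rw [h]; congr 1 <;> ring
  · refine ⟨(pt 0 0, pt 1 0), by simp, ⟨1 - cs x, cs x, by linarith, a1, by ring, ?_⟩⟩
    rw [pt_comb]; conv_rhs => rw [← pt_cs_ct x]
    rw [h]; congr 1 <;> ring
  · refine ⟨(pt 0 1, pt 1 1), by simp, ⟨1 - cs x, cs x, by linarith, a1, by ring, ?_⟩⟩
    rw [pt_comb]; conv_rhs => rw [← pt_cs_ct x]
    rw [h]; congr 1 <;> ring

theorem ext_P {s t : ℝ} (hs : s = 0 ∨ s = 1) (ht : t = 0 ∨ t = 1) : pt s t ∈ Set.extremePoints ℝ (Lz 1 1) := by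
  have hm : pt s t ∈ Lz 1 1 := by
    rw [mem_P]; simp only [cs_pt, ct_pt]
    rcases hs with rfl | rfl <;> rcases ht with rfl | rfl <;> norm_num
  refine ⟨hm, ?_⟩
  rintro x hx y hy ⟨a, b, ha, hb, hab, e⟩
  rw [mem_P] at hx hy
  obtain ⟨⟨h1, h2⟩, h3, h4⟩ := hx
  obtain ⟨⟨k1, k2⟩, k3, k4⟩ := hy
  have e1 : a * cs x + b * cs y = s := by rw [← cs_comb, e, cs_pt]
  have e2 : a * ct x + b * ct y = t := by rw [← ct_comb, e, ct_pt]
  have key : ∀ p q r : ℝ, (r = 0 ∨ r = 1) → 0 ≤ p → p ≤ 1 → 0 ≤ q → q ≤ 1 → a * p + b * q = r → p = r := by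
    rintro p q r (rfl | rfl) hp0 hp1 hq0 hq1 he
    · have : a * p ≤ 0 := by nlinarith [mul_nonneg hb.le hq0]
      have h6 : a * p = 0 := le_antisymm this (mul_nonneg ha.le hp0)
      exact (mul_eq_zero.mp h6).resolve_left ha.ne'
    · have h5 : a * (1 - p) + b * (1 - q) = 0 := by linarith
      have : a * (1 - p) ≤ 0 := by nlinarith [mul_nonneg hb.le (sub_nonneg.mpr hq1)]
      have h6 : a * (1 - p) = 0 := le_antisymm this (mul_nonneg ha.le (sub_nonneg.mpr hp1))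
      have := (mul_eq_zero.mp h6).resolve_left ha.ne'
      linarith
  rw [← pt_cs_ct x, pt_inj]
  exact ⟨key _ _ _ hs h1 h2 k1 k2 e1, key _ _ _ ht h3 h4 k3 k4 e2⟩

theorem not_triangle (a b c : E) : Lz 1 1 ≠ convexHull ℝ {a, b, c} := by
  intro h
  have key : ∀ s t : ℝ, (s = 0 ∨ s = 1) → (t = 0 ∨ t = 1) → pt s t = a ∨ pt s t = b ∨ pt s t = c := by
    intro s t hs ht
    have := ext_P hs ht
    rw [h] at this
    simpa using extremePoints_convexHull_subset this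
  have k00 := key 0 0 (Or.inl rfl) (Or.inl rfl)
  have k01 := key 0 1 (Or.inl rfl) (Or.inr rfl)
  have k10 := key 1 0 (Or.inr rfl) (Or.inl rfl)
  have k11 := key 1 1 (Or.inr rfl) (Or.inr rfl)
  have n1 : pt 0 0 ≠ pt 0 1 := by rw [Ne, pt_inj]; norm_num
  have n2 : pt 0 0 ≠ pt 1 0 := by rw [Ne, pt_inj]; norm_num
  have n3 : pt 0 0 ≠ pt 1 1 := by rw [Ne, pt_inj]; norm_num
  have n4 : pt 0 1 ≠ pt 1 0 := by rw [Ne, pt_inj]; norm_num
  have n5 : pt 0 1 ≠ pt 1 1 := by rw [Ne, pt_inj]; norm_num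
  have n6 : pt 1 0 ≠ pt 1 1 := by rw [Ne, pt_inj]; norm_num
  rcases k00 with e1 | e1 | e1 <;> rcases k01 with e2 | e2 | e2 <;> rcases k10 with e3 | e3 | e3 <;>
  rcases k11 with e4 | e4 | e4 <;>
  first
  | exact n1 (e1.trans e2.symm)
  | exact n2 (e1.trans e3.symm)
  | exact n3 (e1.trans e4.symm)
  | exact n4 (e2.trans e3.symm)
  | exact n5 (e2.trans e4.symm)
  | exact n6 (e3.trans e4.symm)

end Pool.Agent.Helper989.Tile
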